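import Pool.Agent.Work.MP_1ce445_co.Interface

namespace Pool.Agent.TD

open Finset

theorem am_weak (k : ℕ) (hk : 1 ≤ k) (x : Fin k → ℝ) (hx : ∀ j, 0 ≤ x j) :
    ∏ j, x j ≤ ((∑ j, x j) / k) ^ k := by
  have hk0 : (0 : ℝ) < k := by exact_mod_cast hk
  have h := Real.geom_mean_le_arith_mean_weighted univ (fun _ : Fin k => (1 / k : ℝ)) x
    (fun _ _ => by positivity) (by simp; field_simp) (fun j _ => hx j)
  have h2 : ∑ j, (1 / k : ℝ) * x j = (∑ j, x j) / k := by
    rw [← Finset.mul_sum]; ring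
  rw [h2] at h
  have h3 : (∏ j, x j ^ (1 / k : ℝ)) ^ k = ∏ j, x j := by
    rw [← Finset.prod_pow]
    refine Finset.prod_congr rfl fun j _ => ?_
    rw [← Real.rpow_natCast, ← Real.rpow_mul (hx j)]
    rw [one_div, inv_mul_cancel₀ hk0.ne', Real.rpow_one]
  rw [← h3]
  exact pow_le_pow_left₀ (Finset.prod_nonneg fun j _ => Real.rpow_nonneg (hx j) _) h k

theorem am_strict (k : ℕ) (hk : 1 ≤ k) (x : Fin k → ℝ) (hx : ∀ j, 0 ≤ x j)
    (hne : ∃ i j, x i ≠ x j) :
    ∏ j, x j < ((∑ j, x j) / k) ^ k := by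
  have hk0 : (0 : ℝ) < k := by exact_mod_cast hk
  have h := (Real.geom_mean_lt_arith_mean_weighted_iff_of_pos univ (fun _ : Fin k => (1 / k : ℝ)) x
    (fun _ _ => by positivity) (by simp; field_simp) (fun j _ => hx j)).2
    (by obtain ⟨i, j, hij⟩ := hne; exact ⟨i, mem_univ _, j, mem_univ _, hij⟩)
  have h2 : ∑ j, (1 / k : ℝ) * x j = (∑ j, x j) / k := by
    rw [← Finset.mul_sum]; ring
  rw [h2] at h
  have h3 : (∏ j, x j ^ (1 / k : ℝ)) ^ k = ∏ j, x j := by
    rw [← Finset.prod_pow]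
    refine Finset.prod_congr rfl fun j _ => ?_
    rw [← Real.rpow_natCast, ← Real.rpow_mul (hx j)]
    rw [one_div, inv_mul_cancel₀ hk0.ne', Real.rpow_one]
  rw [← h3]
  exact pow_lt_pow_left₀ h (Finset.prod_nonneg fun j _ => Real.rpow_nonneg (hx j) _) (by omega)

theorem stmt_AM : Stmt_AM := by
  intro k x N hk hN hs h
  have hk0 : (0 : ℝ) < k := by exact_mod_cast hk
  have hkk : (0 : ℝ) < (k : ℝ) ^ k := by positivity
  have key : (∏ j, (x j : ℝ)) < ((N : ℝ) / k) ^ k := by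
    have hs' : (∑ j, (x j : ℝ)) ≤ N := by exact_mod_cast hs
    have hs0 : 0 ≤ (∑ j, (x j : ℝ)) := Finset.sum_nonneg fun j _ => by positivity
    rcases h with h | ⟨i, j, hij⟩
    · have h' : (∑ j, (x j : ℝ)) < N := by exact_mod_cast h
      refine lt_of_le_of_lt (am_weak k hk (fun j => (x j : ℝ)) fun j => by positivity) ?_
      refine pow_lt_pow_left₀ ?_ (by positivity) (by omega)
      gcongr
    · refine lt_of_lt_of_le (am_strict k hk (fun j => (x j : ℝ)) (fun j => by positivity)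
        ⟨i, j, by exact_mod_cast hij⟩) ?_
      gcongr
  have h1 : (k : ℝ) ^ k * ∏ j, (x j : ℝ) < (N : ℝ) ^ k := by
    rw [div_pow, lt_div_iff₀ hkk] at key
    linarith
  exact_mod_cast h1

end Pool.Agent.TD
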