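import Pool.Agent.Work.MP_1ce445_co.Interface

namespace Pool.Agent.TD

open Finset

theorem stmt_CDH : Stmt_CDH := by
  classical
  intro n G _ hG v
  obtain ⟨u, hu⟩ := hG v
  choose f hf using hG
  -- vertices outside N[v] whose neighbours are all in N(v)
  let I : Finset (Fin n) := univ.filter (fun x => x ≠ v ∧ ¬ G.Adj v x ∧ ∀ y, G.Adj x y → G.Adj v y)
  let J : Finset (Fin n) := univ.filter (fun x => x ≠ v ∧ ¬ G.Adj v x ∧ ¬ ∀ y, G.Adj x y → G.Adj v y)
  let S : Finset (Fin n) := (J ∪ {v}) ∪ (if I = ∅ then {u} else I.image f)
  have hS : IsTDSet G S := by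
    intro x
    by_cases hx1 : G.Adj v x
    · exact ⟨v, by simp [S], hx1.symm⟩
    by_cases hx2 : x = v
    · subst hx2
      by_cases hI : I = ∅
      · exact ⟨u, by simp [S, hI], hu⟩
      · obtain ⟨y, hy⟩ := Finset.nonempty_iff_ne_empty.2 hI
        have hy' := (Finset.mem_filter.1 hy).2
        refine ⟨f y, ?_, hy'.2.2 _ (hf y)⟩
        simp only [S, hI, if_false, Finset.mem_union]
        exact Or.inr (Finset.mem_image_of_mem f hy)
    by_cases hx3 : ∀ y, G.Adj x y → G.Adj v y
    · have hxI : x ∈ I := by simp [I, hx1, hx2]; exact hx3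
      have hI : I ≠ ∅ := Finset.nonempty_iff_ne_empty.1 ⟨x, hxI⟩
      refine ⟨f x, ?_, hf x⟩
      simp only [S, hI, if_false, Finset.mem_union]
      exact Or.inr (Finset.mem_image_of_mem f hxI)
    · push Not at hx3
      obtain ⟨y, hxy, hvy⟩ := hx3
      have hyv : y ≠ v := by
        rintro rfl
        exact hx1 hxy.symm
      refine ⟨y, ?_, hxy⟩
      have hyJ : y ∈ J := by
        simp only [J, Finset.mem_filter, Finset.mem_univ, true_and]
        refine ⟨hyv, hvy, ?_⟩
        push Not
        exact ⟨x, hxy.symm, hx1⟩
      simp only [S, Finset.mem_union]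
      exact Or.inl (Or.inl hyJ)
  have h1 := gammaT_le hS
  -- cardinalities
  have hpart : J.card + I.card + G.degree v + 1 = n := by
    have e1 : (univ : Finset (Fin n)) = ((J ∪ I) ∪ G.neighborFinset v) ∪ {v} := by
      ext x
      simp only [J, I, Finset.mem_univ, Finset.mem_union, Finset.mem_filter, true_and,
        SimpleGraph.mem_neighborFinset, Finset.mem_singleton, true_iff]
      tauto
    have d1 : Disjoint ((J ∪ I) ∪ G.neighborFinset v) {v} := by
      rw [Finset.disjoint_singleton_right]
      simp [J, I]
    have d2 : Disjoint (J ∪ I) (G.neighborFinset v) := by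
      rw [Finset.disjoint_left]
      intro x hx
      simp only [J, I, Finset.mem_union, Finset.mem_filter, Finset.mem_univ, true_and] at hx
      rw [SimpleGraph.mem_neighborFinset]
      tauto
    have d3 : Disjoint J I := by
      rw [Finset.disjoint_left]
      intro x hx
      simp only [J, I, Finset.mem_filter, Finset.mem_univ, true_and] at hx ⊢
      tauto
    have e2 : (univ : Finset (Fin n)).card = n := by simp
    rw [e1, Finset.card_union_of_disjoint d1, Finset.card_union_of_disjoint d2,
      Finset.card_union_of_disjoint d3, Finset.card_singleton, SimpleGraph.card_neighborFinset_eq_degree] at e2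
    omega
  have h2 : S.card ≤ J.card + 1 + (I.card + 1) ∧ (I ≠ ∅ → S.card ≤ J.card + 1 + I.card) := by
    constructor
    · refine (Finset.card_union_le _ _).trans ?_
      refine Nat.add_le_add ((Finset.card_union_le _ _).trans (by simp)) ?_
      split_ifs with h
      · simp
      · exact (Finset.card_image_le).trans (by omega)
    · intro h
      refine (Finset.card_union_le _ _).trans ?_
      refine Nat.add_le_add ((Finset.card_union_le _ _).trans (by simp)) ?_
      rw [if_neg h]
      exact Finset.card_image_le
  by_cases hI : I = ∅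
  · have : I.card = 0 := by simp [hI]
    omega
  · have := h2.2 hI
    omega

end Pool.Agent.TD
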