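import Pool.Agent.Work.MP_1ce445_co.CNT

namespace Pool.Agent.TD

open Finset

theorem stmt_R4 : Stmt_R4 := by
  classical
  intro n G _ hn hdeg hm
  have hG : ∀ v, ∃ w, G.Adj v w := by
    intro v
    rw [← SimpleGraph.degree_pos_iff_exists_adj]
    have := hdeg v
    omega
  choose f hf using hG
  let Lf : Finset (Fin n) := univ.filter (fun v => G.degree v = 1)
  let Nl : Finset (Fin n) := univ.filter (fun v => ¬ G.degree v = 1)
  let W : Finset (Fin n) := Lf.image f
  let U : Finset (Fin n) := univ \ W
  have hW : W.card ≤ Lf.card := Finset.card_image_le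
  have hLN : Lf.card + Nl.card = n := by
    have := Finset.card_filter_add_card_filter_not (s := (univ : Finset (Fin n)))
      (fun v => G.degree v = 1)
    simpa using this
  have hU : U.card + W.card = n := by
    have h1 : U.card = (univ : Finset (Fin n)).card - W.card :=
      Finset.card_sdiff_of_subset (Finset.subset_univ _)
    have h2 := Finset.card_le_univ W
    rw [Finset.card_univ, Fintype.card_fin] at h1
    rw [Fintype.card_fin] at h2
    omega
  have hLm : Lf.card + 3 < n := hm
  by_contra hcon
  have hbad : ∀ R ∈ U.powersetCard 2, ∃ v ∈ Nl, G.neighborFinset v = R := by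
    intro R hR
    obtain ⟨hRU, hR2⟩ := Finset.mem_powersetCard.1 hR
    by_contra hc
    push Not at hc
    refine hcon ?_
    have h1 := gammaT_add_card_le (G := G) R (fun v => by
      by_contra hc2
      push Not at hc2
      have hsub : G.neighborFinset v ⊆ R := fun w hw => hc2 w (by simpa using hw)
      by_cases hv : G.degree v = 1
      · have h2 : f v ∈ W := Finset.mem_image_of_mem f (by simp [Lf, hv])
        have h3 : f v ∈ U := hRU (hc2 _ (hf v))
        exact (Finset.mem_sdiff.1 h3).2 h2
      · have hv2 : G.degree v = 2 := by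
          have := hdeg v
          omega
        refine hc v (by simp [Nl, hv]) (Finset.eq_of_subset_of_card_le hsub ?_)
        rw [hR2, SimpleGraph.card_neighborFinset_eq_degree, hv2])
    rw [hR2] at h1
    simpa using h1
  have hsub : U.powersetCard 2 ⊆ Nl.image (fun v => G.neighborFinset v) := by
    intro R hR
    obtain ⟨v, hv, he⟩ := hbad R hR
    exact Finset.mem_image.2 ⟨v, hv, he⟩
  have h1 := (Finset.card_le_card hsub).trans Finset.card_image_le
  rw [Finset.card_powersetCard] at h1
  obtain ⟨r, hr⟩ : ∃ r, U.card = r + 2 := ⟨U.card - 2, by omega⟩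
  have h2 := choose_two r
  rw [hr] at h1
  have h3 : Nl.card ≤ r + 2 := by omega
  have h4 : 2 ≤ r := by omega
  nlinarith

end Pool.Agent.TD
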