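import Pool.Agent.Work.MP_1ce445_co.Interface

/-!
Block R5 of MP_1ce445_co.
-/

namespace Pool.Agent.TD.R5Aux

open Finset Pool.Agent.TD

/-- number of `D`-subsets of `U` containing `A` -/
theorem card_filter_le {α : Type*} [DecidableEq α] (U A : Finset α) (D : ℕ) :
    ((U.powersetCard D).filter (fun R => A ⊆ R)).card ≤
      (U.card - A.card).choose (D - A.card) := by
  by_cases h : A ⊆ U
  · rw [← card_sdiff_of_subset h, ← card_powersetCard]
    refine card_le_card_of_injOn (fun R => R \ A) ?_ ?_
    · intro R hR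
      rw [mem_coe, mem_filter, mem_powersetCard] at hR
      rw [mem_coe, mem_powersetCard]
      exact ⟨sdiff_subset_sdiff hR.1.1 (le_refl _), by
        rw [card_sdiff_of_subset hR.2, hR.1.2]⟩
    · intro R hR R' hR' hRR
      rw [mem_coe, mem_filter, mem_powersetCard] at hR hR'
      have hRR : R \ A = R' \ A := hRR
      rw [← sdiff_union_of_subset hR.2, ← sdiff_union_of_subset hR'.2, hRR]
  · rw [filter_false_of_mem]
    · simp
    · intro R hR hA
      rw [mem_powersetCard] at hR
      exact h (hA.trans hR.1)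

theorem choose_mono_half {N a b : ℕ} (hab : a ≤ b) (hb : 2 * b ≤ N) :
    N.choose a ≤ N.choose b := by
  induction b, hab using Nat.le_induction with
  | base => exact le_refl _
  | succ b hab ih =>
    exact (ih (by omega)).trans (Nat.choose_le_succ_of_lt_half_left (by omega))

theorem choose_three (N : ℕ) : 6 * N.choose 3 = (N - 2) * ((N - 1) * N) := by
  have h := Nat.descFactorial_eq_factorial_mul_choose N 3
  have h2 : N.descFactorial 3 = (N - 2) * ((N - 1) * N) := by
    simp [Nat.descFactorial]
  rw [← h2, h]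
  rfl

theorem arith {N D T l : ℕ} (hD : 3 ≤ D) (hN : 2 * D ≤ N) (h3 : 3 * D ≤ N + l + 1)
    (hT : T + 2 * l + 1 ≤ 2 * D) : N + (N - D) * T < N.choose D := by
  have h1 : N.choose 3 ≤ N.choose D := choose_mono_half hD hN
  have h2 := choose_three N
  refine lt_of_lt_of_le ?_ h1
  obtain ⟨M, rfl⟩ : ∃ M, N = M + 6 := ⟨N - 6, by omega⟩
  have h4 : (M + 6 - D) * T ≤ (M + 3) * T := Nat.mul_le_mul (by omega) (le_refl _)
  have h5 : 3 * T ≤ 2 * M + 11 := by omega
  have h6 : (M + 6 - 2) = M + 4 := by omega
  have h7 : (M + 6 - 1) = M + 5 := by omega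
  rw [h6, h7] at h2
  have h8 : 3 * ((M + 3) * T) ≤ (M + 3) * (2 * M + 11) := by
    calc 3 * ((M + 3) * T) = (M + 3) * (3 * T) := by ring
      _ ≤ (M + 3) * (2 * M + 11) := Nat.mul_le_mul (le_refl _) h5
  have h9 : 6 * (M + 6) + 2 * ((M + 3) * (2 * M + 11)) < (M + 4) * ((M + 5) * (M + 6)) := by
    ring_nf
    nlinarith [Nat.zero_le M, Nat.zero_le (M ^ 2), Nat.zero_le (M ^ 3)]
  omega

end Pool.Agent.TD.R5Aux

namespace Pool.Agent.TD

open Finset R5Aux

theorem stmt_R5 : Stmt_R5 := by
  classical
  intro n D G _ hD hDn hpos hdeg hdef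
  choose f hf using hpos
  set low : Finset (Fin n) := univ.filter (fun v => G.degree v + 2 ≤ D) with hlow
  set W : Finset (Fin n) := low.image f with hW
  set T : ℕ := ∑ v ∈ lowᶜ, (D - G.degree v) with hT
  have hWl : W.card ≤ low.card := card_image_le
  have hsum : T + 2 * low.card + 1 ≤ 2 * D := by
    have h1 : ∑ v ∈ low, 2 ≤ ∑ v ∈ low, (D - G.degree v) := by
      refine sum_le_sum (fun v hv => ?_)
      rw [hlow, mem_filter] at hv
      omega
    rw [sum_const, smul_eq_mul] at h1
    have h2 : ∑ v ∈ low, (D - G.degree v) + T = ∑ v, (D - G.degree v) :=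
      sum_add_sum_compl low _
    omega
  have hcardn : (univ : Finset (Fin n)).card = n := by simp
  have hWc : n - low.card ≤ (Wᶜ).card := by
    rw [card_compl, Fintype.card_fin]
    omega
  obtain ⟨U, hUW, hUc⟩ := exists_subset_card_eq hWc
  have hln : low.card + 2 * D ≤ n := by omega
  have hN : 2 * D ≤ n - low.card := by omega
  -- the bad sets
  have hbad : ((U.powersetCard D).filter (fun R => ∃ v ∈ lowᶜ, G.neighborFinset v ⊆ R)).card <
      (U.powersetCard D).card := by
    rw [card_powersetCard, hUc]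
    refine lt_of_le_of_lt ?_ (arith (N := n - low.card) (T := T) (l := low.card) hD hN (by omega)
      hsum)
    have h1 : (U.powersetCard D).filter (fun R => ∃ v ∈ lowᶜ, G.neighborFinset v ⊆ R) ⊆
        lowᶜ.biUnion (fun v => (U.powersetCard D).filter (fun R => G.neighborFinset v ⊆ R)) := by
      intro R hR
      rw [mem_filter] at hR
      obtain ⟨hR, v, hv, hvR⟩ := hR
      rw [mem_biUnion]
      exact ⟨v, hv, mem_filter.2 ⟨hR, hvR⟩⟩
    refine (card_le_card h1).trans (card_biUnion_le.trans ?_)
    have h2 : ∀ v ∈ lowᶜ, ((U.powersetCard D).filter (fun R => G.neighborFinset v ⊆ R)).card ≤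
        1 + (n - low.card - D) * (D - G.degree v) := by
      intro v hv
      refine (card_filter_le U (G.neighborFinset v) D).trans ?_
      rw [hlow, mem_compl, mem_filter] at hv
      have hv1 : ¬ G.degree v + 2 ≤ D := fun h => hv ⟨mem_univ _, h⟩
      have hv2 := hdeg v
      rw [SimpleGraph.card_neighborFinset_eq_degree, hUc]
      rcases Nat.lt_or_ge (G.degree v) D with h | h
      · have h3 : D - G.degree v = 1 := by omega
        rw [h3, Nat.choose_one_right]
        omega
      · have h3 : D - G.degree v = 0 := by omega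
        rw [h3, Nat.choose_zero_right]
        omega
    refine (sum_le_sum h2).trans ?_
    rw [sum_add_distrib, sum_const, smul_eq_mul, mul_one, ← mul_sum, card_compl,
      Fintype.card_fin]
  obtain ⟨R, hR, hRn⟩ : ∃ R ∈ U.powersetCard D, ¬ ∃ v ∈ lowᶜ, G.neighborFinset v ⊆ R := by
    by_contra hcon
    push Not at hcon
    rw [filter_true_of_mem (fun R hR => hcon R hR)] at hbad
    exact lt_irrefl _ hbad
  rw [mem_powersetCard] at hR
  have h1 := gammaT_add_card_le (G := G) R (fun v => by
    by_cases hv : v ∈ low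
    · refine ⟨f v, hf v, fun h => ?_⟩
      have h2 := hUW (hR.1 h)
      rw [mem_compl] at h2
      exact h2 (mem_image_of_mem f hv)
    · have h2 : ¬ G.neighborFinset v ⊆ R := fun h => hRn ⟨v, mem_compl.2 hv, h⟩
      rw [not_subset] at h2
      obtain ⟨w, hw, hwR⟩ := h2
      rw [SimpleGraph.mem_neighborFinset] at hw
      exact ⟨w, hw, hwR⟩)
  rw [hR.2, Fintype.card_fin] at h1
  exact h1

end Pool.Agent.TD
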