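import Pool.Agent.Work.MP_1ce445_co.AM
import Pool.Agent.Work.MP_1ce445_co.CDH
import Pool.Agent.Work.MP_1ce445_co.R4
import Pool.Agent.Work.MP_1ce445_co.R5

namespace Pool.Agent.TD

open Finset

/-- the degrees of a factorization add up to `n - 1` -/
theorem sum_degree {n k : ℕ} (G : Fin k → SimpleGraph (Fin n)) [∀ j, DecidableRel (G j).Adj]
    (hG : IsFact G) (v : Fin n) : ∑ j, (G j).degree v = n - 1 := by
  classical
  have h1 : ∀ j, (G j).degree v = ∑ w : Fin n, if (G j).Adj v w then 1 else 0 := by
    intro j
    rw [← SimpleGraph.card_neighborFinset_eq_degree, Finset.sum_boole]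
    simp only [Nat.cast_id]
    congr 1
    ext x
    simp
  have h2 : ∀ w : Fin n, ∑ j, (if (G j).Adj v w then 1 else 0) = if w = v then 0 else 1 := by
    intro w
    by_cases hw : w = v
    · rw [if_pos hw]
      refine Finset.sum_eq_zero fun j _ => ?_
      rw [if_neg]
      rw [hw]
      exact (G j).loopless.irrefl v
    · rw [if_neg hw]
      obtain ⟨j, hj⟩ := hG.cover v w (Ne.symm hw)
      rw [Finset.sum_eq_single j]
      · rw [if_pos hj]
      · intro i _ hij
        rw [if_neg (hG.disj j i (Ne.symm hij) v w hj)]
      · intro h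
        exact absurd (Finset.mem_univ _) h
  calc ∑ j, (G j).degree v = ∑ j, ∑ w : Fin n, (if (G j).Adj v w then 1 else 0) :=
        Finset.sum_congr rfl fun j _ => h1 j
    _ = ∑ w : Fin n, ∑ j, (if (G j).Adj v w then 1 else 0) := Finset.sum_comm
    _ = ∑ w : Fin n, (if w = v then 0 else 1) := Finset.sum_congr rfl fun w _ => h2 w
    _ = n - 1 := by
        rw [Finset.sum_ite]
        simp only [Finset.sum_const_zero, Finset.sum_const, smul_eq_mul, zero_add, mul_one]
        rw [Finset.filter_ne', Finset.card_erase_of_mem (Finset.mem_univ _)]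
        simp

/-- a graph with all degrees one has total domination number `n` -/
theorem gammaT_one {n : ℕ} (G : SimpleGraph (Fin n)) [DecidableRel G.Adj]
    (h : ∀ v, G.degree v = 1) : gammaT G = n := by
  have hG : ∀ v, ∃ w, G.Adj v w := by
    intro v
    rw [← SimpleGraph.degree_pos_iff_exists_adj, h v]
    exact one_pos
  refine le_antisymm (by simpa using gammaT_le_card hG) ?_
  refine le_gammaT hG fun S hS => ?_
  have : S = univ := by
    rw [Finset.eq_univ_iff_forall]
    intro v
    obtain ⟨w, hw⟩ := hG v
    obtain ⟨x, hx, hwx⟩ := hS w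
    have h1 := h w
    rw [SimpleGraph.degree_eq_one_iff_existsUnique_adj] at h1
    have : x = v := h1.unique hwx hw.symm
    rwa [← this]
  rw [this]
  simp

theorem stmt_A : Stmt_A := by
  classical
  intro n k hn hk hkn G hG
  have : Nonempty (Fin n) := ⟨⟨0, by omega⟩⟩
  set D : Fin k → ℕ := fun j => (G j).maxDegree with hD
  set g : Fin k → ℕ := fun j => gammaT (G j) with hg
  have hDle : ∀ j v, (G j).degree v ≤ D j := fun j v => (G j).degree_le_maxDegree v
  have hDex : ∀ j, ∃ v, (G j).degree v = D j := by
    intro j
    obtain ⟨v, hv⟩ := (G j).exists_maximal_degree_vertex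
    exact ⟨v, hv.symm⟩
  have hdpos : ∀ j v, 1 ≤ (G j).degree v := by
    intro j v
    rw [Nat.one_le_iff_ne_zero, ← Nat.pos_iff_ne_zero, SimpleGraph.degree_pos_iff_exists_adj]
    exact hG.pos j v
  have hDpos : ∀ j, 1 ≤ D j := fun j => by
    obtain ⟨v, hv⟩ := hDex j
    rw [← hv]
    exact hdpos j v
  have hcdh : ∀ j, g j + D j ≤ n + 1 := by
    intro j
    obtain ⟨v, hv⟩ := hDex j
    have := stmt_CDH n (G j) (hG.pos j) v
    rw [hv] at this
    exact this
  set e : Fin k → ℕ := fun j => n + 1 - (g j + D j) with he
  have hge : ∀ j, g j + D j + e j = n + 1 := fun j => by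
    have := hcdh j
    simp only [he]
    omega
  have hsumdeg : ∀ v, ∑ j, (G j).degree v = n - 1 := sum_degree G hG
  -- total maximum degree
  obtain ⟨t, ht⟩ : ∃ t, ∑ j, D j = n - 1 + t := by
    have h1 : n - 1 ≤ ∑ j, D j := by
      rw [← hsumdeg ⟨0, by omega⟩]
      exact Finset.sum_le_sum fun j _ => hDle j _
    exact ⟨∑ j, D j - (n - 1), by omega⟩
  have hdef : ∀ v, ∑ j, (D j - (G j).degree v) = t := by
    intro v
    have h1 : ∑ j, (D j - (G j).degree v) + ∑ j, (G j).degree v = ∑ j, D j := by
      rw [← Finset.sum_add_distrib]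
      refine Finset.sum_congr rfl fun j _ => ?_
      have := hDle j v
      omega
    rw [hsumdeg v, ht] at h1
    omega
  have hsum : ∑ j, g j + t + ∑ j, e j = (k - 1) * (n + 1) + 2 := by
    have h1 : ∑ j, g j + ∑ j, D j + ∑ j, e j = k * (n + 1) := by
      rw [← Finset.sum_add_distrib, ← Finset.sum_add_distrib, Finset.sum_congr rfl fun j _ => hge j]
      simp
    obtain ⟨k', rfl⟩ : ∃ k', k = k' + 1 := ⟨k - 1, by omega⟩
    rw [ht] at h1
    have h2 : (k' + 1) * (n + 1) = k' * (n + 1) + (n + 1) := by ring
    simp only [Nat.add_sub_cancel]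
    omega
  have hN1 : 1 ≤ (k - 1) * (n + 1) := Nat.mul_pos (by omega) (by omega)
  -- first way to finish
  have fin1 : 3 ≤ t + ∑ j, e j → k ^ k * ∏ j, gammaT (G j) < ((k - 1) * (n + 1)) ^ k := by
    intro h
    exact stmt_AM k g _ (by omega) hN1 (by omega) (Or.inl (by omega))
  -- second way to finish
  have fin2 : 2 ≤ t + ∑ j, e j → (∃ i, D i = 1) →
      k ^ k * ∏ j, gammaT (G j) < ((k - 1) * (n + 1)) ^ k := by
    rintro h ⟨i, hi⟩
    refine stmt_AM k g _ (by omega) hN1 (by omega) (Or.inr ?_)
    by_contra hcon
    push Not at hcon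
    have h1 : g i = n := gammaT_one (G i) (fun v => by
      have := hDle i v
      have := hdpos i v
      omega)
    have h2 : ∑ j, g j = k * n := by
      rw [Finset.sum_congr rfl fun j _ => hcon j i]
      simp [h1]
    obtain ⟨k', rfl⟩ : ∃ k', k = k' + 1 := ⟨k - 1, by omega⟩
    simp only [Nat.add_sub_cancel] at hsum
    have h3 : (k' + 1) * n = k' * n + n := by ring
    have h4 : k' * (n + 1) = k' * n + k' := by ring
    omega
  set B : Finset (Fin k) := univ.filter (fun j => 2 ≤ D j) with hB
  have hBone : ∀ j, j ∉ B → D j = 1 := by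
    intro j hj
    have h1 := hDpos j
    have h2 : ¬ 2 ≤ D j := by
      intro h
      exact hj (by simp [hB, h])
    omega
  have hBex : B.card < k → ∃ i, D i = 1 := by
    intro h
    have : ∃ i, i ∉ B := by
      by_contra hc
      push Not at hc
      have : B = univ := Finset.eq_univ_iff_forall.2 hc
      rw [this] at h
      simp at h
    obtain ⟨i, hi⟩ := this
    exact ⟨i, hBone i hi⟩
  have hDsum1 : ∀ j, D j + (k - 1) ≤ n - 1 + t := by
    intro j
    have h1 : ∑ i ∈ univ.erase j, D i + D j = ∑ i, D i :=
      Finset.sum_erase_add _ _ (Finset.mem_univ j)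
    have h2 : k - 1 ≤ ∑ i ∈ univ.erase j, D i := by
      have h3 : ∑ _i ∈ univ.erase j, 1 ≤ ∑ i ∈ univ.erase j, D i :=
        Finset.sum_le_sum fun i _ => hDpos i
      simpa using h3
    omega
  have hDsum2 : ∀ j, B = {j} → D j + (k - 1) = n - 1 + t := by
    intro j hj
    have h1 : ∑ i ∈ univ.erase j, D i + D j = ∑ i, D i :=
      Finset.sum_erase_add _ _ (Finset.mem_univ j)
    have h2 : ∑ i ∈ univ.erase j, D i = k - 1 := by
      rw [Finset.sum_congr rfl (g := fun _ => 1) (fun i hi => hBone i (by
        rw [hj, Finset.mem_singleton]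
        exact (Finset.mem_erase.1 hi).1))]
      simp
    omega
  have hB0 : B = ∅ → k = n - 1 + t := by
    intro h
    rw [← ht, Finset.sum_congr rfl (g := fun _ => 1) (fun i _ => hBone i (by simp [h]))]
    simp
  by_cases ht3 : 3 ≤ t
  · exact fin1 (by omega)
  have ht2 : t = 0 ∨ t = 1 ∨ t = 2 := by omega
  rcases ht2 with rfl | rfl | rfl
  · -- regular factors
    have hreg : ∀ j v, (G j).degree v = D j := by
      intro j v
      have h1 := hdef v
      rw [Finset.sum_eq_zero_iff] at h1
      have h2 := h1 j (Finset.mem_univ _)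
      have h3 := hDle j v
      omega
    have he1 : ∀ j ∈ B, 1 ≤ e j := by
      intro j hj
      have h1 : 2 ≤ D j := by simpa [hB] using hj
      have h2 := hDsum1 j
      have h3 := stmt_R1 n (D j) (G j) (by omega) h1 (by omega) (hreg j)
      have h4 := hge j
      have h5 : g j + D j ≤ n := h3
      omega
    have he2 : B.card ≤ ∑ j, e j := by
      calc B.card = ∑ _j ∈ B, 1 := by simp
        _ ≤ ∑ j ∈ B, e j := Finset.sum_le_sum he1
        _ ≤ ∑ j, e j := Finset.sum_le_sum_of_subset (Finset.subset_univ _)
    by_cases hb3 : 3 ≤ B.card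
    · exact fin1 (by omega)
    by_cases hb2 : B.card = 2
    · exact fin2 (by omega) (hBex (by omega))
    by_cases hb1 : B.card = 1
    · obtain ⟨j, hj⟩ := Finset.card_eq_one.1 hb1
      have h1 := hDsum2 j hj
      have h2 : ∃ i, D i = 1 := hBex (by omega)
      obtain ⟨i, hi⟩ := h2
      have h3 : 2 ∣ n := by
        have h4 := (G i).sum_degrees_eq_twice_card_edges
        simp only [hreg i, hi] at h4
        simp at h4
        exact ⟨_, h4⟩
      have h5 : 8 ≤ n := by omega
      have h6 := stmt_R2 n (D j) (G j) h5 (by omega) (by omega) (hreg j)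
      have h7 := hge j
      have h8 : g j + (D j + 1) ≤ n := h6
      have h9 : e j ≤ ∑ j, e j := Finset.single_le_sum (fun _ _ => Nat.zero_le _) (Finset.mem_univ j)
      exact fin2 (by omega) ⟨i, hi⟩
    · have hb0 : B = ∅ := Finset.card_eq_zero.1 (by omega)
      have := hB0 hb0
      omega
  · -- one missing degree at every vertex
    have hnear : ∀ j v, (G j).degree v = D j ∨ (G j).degree v + 1 = D j := by
      intro j v
      have h1 : D j - (G j).degree v ≤ ∑ i, (D i - (G i).degree v) :=
        Finset.single_le_sum (f := fun i => D i - (G i).degree v)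
          (fun _ _ => Nat.zero_le _) (Finset.mem_univ j)
      rw [hdef v] at h1
      have := hDle j v
      omega
    set Z : Finset (Fin k) := B.filter (fun j => e j = 0) with hZ
    have hZdef : ∀ j ∈ Z, n ≤ ∑ v, (D j - (G j).degree v) + 3 := by
      intro j hj
      obtain ⟨hjB, hje⟩ := Finset.mem_filter.1 hj
      have h1 : 2 ≤ D j := by simpa [hB] using hjB
      have h2 := hDsum1 j
      have h3 := hge j
      by_cases h4 : 3 ≤ D j
      · have h5 := stmt_R3 n (D j) (G j) hn h4 (by omega) (hnear j) (hDex j)
        have h6 : g j + D j ≤ n := h5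
        omega
      · have h5 : D j = 2 := by omega
        by_contra hcon
        push Not at hcon
        have h6 : ∑ v, (D j - (G j).degree v) =
            (univ.filter (fun v => (G j).degree v = 1)).card := by
          rw [Finset.card_filter]
          refine Finset.sum_congr rfl fun v _ => ?_
          have := hnear j v
          split_ifs <;> omega
        have h7 := stmt_R4 n (G j) hn (fun v => by
          have := hnear j v
          omega) (by omega)
        have h8 : g j + 2 ≤ n := h7
        omega
    have hZcard : Z.card ≤ 1 := by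
      by_contra hcon
      push Not at hcon
      have h1 : ∑ j ∈ Z, (n - 3) ≤ ∑ j ∈ Z, ∑ v, (D j - (G j).degree v) :=
        Finset.sum_le_sum fun j hj => by
          have := hZdef j hj
          omega
      have h2 : ∑ j ∈ Z, ∑ v, (D j - (G j).degree v) ≤ n := by
        calc ∑ j ∈ Z, ∑ v, (D j - (G j).degree v)
            ≤ ∑ j, ∑ v, (D j - (G j).degree v) :=
              Finset.sum_le_sum_of_subset (Finset.subset_univ _)
          _ = ∑ v, ∑ j, (D j - (G j).degree v) := Finset.sum_comm
          _ = n := by simp [hdef]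
      simp only [Finset.sum_const, smul_eq_mul] at h1
      have h3 : 2 * (n - 3) ≤ Z.card * (n - 3) := Nat.mul_le_mul_right _ hcon
      omega
    have he2 : B.card ≤ ∑ j, e j + Z.card := by
      have h1 : (B.filter (fun j => ¬ e j = 0)).card + Z.card = B.card := by
        have h00 := Finset.card_filter_add_card_filter_not (s := B) (fun j => e j = 0)
        have h01 : Z.card = (B.filter (fun j => e j = 0)).card := rfl
        rw [h01, add_comm]
        exact h00
      have h2 : (B.filter (fun j => ¬ e j = 0)).card ≤ ∑ j, e j := by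
        calc (B.filter (fun j => ¬ e j = 0)).card = ∑ _j ∈ B.filter (fun j => ¬ e j = 0), 1 := by
              simp
          _ ≤ ∑ j ∈ B.filter (fun j => ¬ e j = 0), e j := Finset.sum_le_sum fun j hj => by
              have := (Finset.mem_filter.1 hj).2
              omega
          _ ≤ ∑ j, e j := Finset.sum_le_sum_of_subset (Finset.subset_univ _)
      omega
    by_cases hb3 : 3 ≤ B.card
    · exact fin1 (by omega)
    by_cases hb2 : B.card = 2
    · exact fin2 (by omega) (hBex (by omega))
    by_cases hb1 : B.card = 1
    · obtain ⟨j, hj⟩ := Finset.card_eq_one.1 hb1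
      have h1 := hDsum2 j hj
      have h2 := hDsum1 j
      have h3 := stmt_R3 n (D j) (G j) hn (by omega) (by omega) (hnear j) (hDex j)
      have h4 : g j + D j ≤ n := h3
      have h5 := hge j
      have h9 : e j ≤ ∑ j, e j := Finset.single_le_sum (fun _ _ => Nat.zero_le _) (Finset.mem_univ j)
      exact fin2 (by omega) (hBex (by omega))
    · have hb0 : B = ∅ := Finset.card_eq_zero.1 (by omega)
      have := hB0 hb0
      omega
  · -- two missing degrees at every vertex
    by_cases hes : 1 ≤ ∑ j, e j
    · exact fin1 (by omega)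
    have hes0 : ∑ j, e j = 0 := by omega
    have he0 : ∀ j, e j = 0 := by
      intro j
      rw [Finset.sum_eq_zero_iff] at hes0
      exact hes0 j (Finset.mem_univ _)
    by_cases hall : ∃ i j, g i ≠ g j
    · exact stmt_AM k g _ (by omega) hN1 (by omega) (Or.inr hall)
    exfalso
    push Not at hall
    have hj0 : (0 : ℕ) < k := by omega
    set d : ℕ := D ⟨0, hj0⟩ with hd
    have hDd : ∀ j, D j = d := by
      intro j
      have h1 := hge j
      have h2 := hge ⟨0, hj0⟩
      have h3 := he0 j
      have h4 := he0 ⟨0, hj0⟩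
      have h5 := hall j ⟨0, hj0⟩
      omega
    have hkd : k * d = n + 1 := by
      have h1 : ∑ j, D j = k * d := by
        rw [Finset.sum_congr rfl fun j _ => hDd j]
        simp
      omega
    have hd2 : 2 ≤ d := by
      by_contra hcon
      have h1 : d ≤ 1 := by omega
      have h2 : k * d ≤ k * 1 := Nat.mul_le_mul_left _ h1
      omega
    have h3d : 3 * d ≤ n + 1 := by
      rw [← hkd]
      exact Nat.mul_le_mul_right _ hk
    have hexj : ∃ j, ∑ v, (d - (G j).degree v) + 1 ≤ 2 * d := by
      by_contra hcon
      push Not at hcon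
      have h1 : ∑ _j : Fin k, 2 * d ≤ ∑ j, ∑ v, (d - (G j).degree v) :=
        Finset.sum_le_sum fun j _ => by
          have := hcon j
          omega
      have h2 : ∑ j, ∑ v, (d - (G j).degree v) = n * 2 := by
        calc ∑ j, ∑ v, (d - (G j).degree v) = ∑ j, ∑ v, (D j - (G j).degree v) := by
              refine Finset.sum_congr rfl fun j _ => ?_
              rw [hDd j]
          _ = ∑ v, ∑ j, (D j - (G j).degree v) := Finset.sum_comm
          _ = n * 2 := by simp [hdef]
      rw [h2] at h1
      simp only [Finset.sum_const, Finset.card_univ, Fintype.card_fin, smul_eq_mul] at h1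
      have h3 : k * (2 * d) = 2 * (k * d) := by ring
      omega
    obtain ⟨j, hj⟩ := hexj
    have hgj : g j + d = n + 1 := by
      have h1 := hge j
      have h2 := he0 j
      have h3 := hDd j
      omega
    by_cases hd3 : 3 ≤ d
    · have h1 := stmt_R5 n d (G j) hd3 h3d (hG.pos j) (fun v => by rw [← hDd j]; exact hDle j v) hj
      have h2 : g j + d ≤ n := h1
      omega
    · have hd' : d = 2 := by omega
      have hdeg : ∀ v, (G j).degree v = 1 ∨ (G j).degree v = 2 := by
        intro v
        have h1 := hDle j v
        have h2 := hdpos j v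
        have h3 := hDd j
        omega
      have h6 : ∑ v, (d - (G j).degree v) =
          (univ.filter (fun v => (G j).degree v = 1)).card := by
        rw [Finset.card_filter]
        refine Finset.sum_congr rfl fun v _ => ?_
        have := hdeg v
        split_ifs <;> omega
      have h7 := stmt_R4 n (G j) hn hdeg (by omega)
      have h8 : g j + 2 ≤ n := h7
      omega

end Pool.Agent.TD
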