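import Pool.Agent.Work.MP_1ce445_co.TWO

/-!
FAM: a probability measure on an intersecting family.
-/

namespace Pool.Agent.TD.FAMAux

open Finset

theorem anti2 : AntitoneOn (fun p : ℝ => (1 - p) * Real.exp (p + p ^ 2 / 2)) (Set.Icc 0 1) := by
  have hd : ∀ p : ℝ, HasDerivAt (fun p : ℝ => (1 - p) * Real.exp (p + p ^ 2 / 2))
      ((-1) * Real.exp (p + p ^ 2 / 2) + (1 - p) * (Real.exp (p + p ^ 2 / 2) * (1 + p))) p := by
    intro p
    have e1 : HasDerivAt (fun p : ℝ => 1 - p) (-1) p := by
      simpa using (hasDerivAt_id p).const_sub 1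
    have e2 : HasDerivAt (fun p : ℝ => p + p ^ 2 / 2) (1 + p) p := by
      have h1 : HasDerivAt (fun p : ℝ => p ^ 2 / 2) (2 * p / 2) p := by
        have := (hasDerivAt_pow 2 p).div_const 2
        simpa using this
      have h2 := (hasDerivAt_id p).add h1
      have h3 : 2 * p / 2 = p := by ring
      rw [h3] at h2
      exact h2
    exact e1.mul e2.exp
  apply antitoneOn_of_deriv_nonpos (convex_Icc 0 1)
  · intro p _
    exact (hd p).continuousAt.continuousWithinAt
  · intro p _
    exact (hd p).differentiableAt.differentiableWithinAt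
  · intro p hp
    rw [(hd p).deriv]
    have h1 := Real.exp_pos (p + p ^ 2 / 2)
    nlinarith [mul_nonneg h1.le (sq_nonneg p)]

theorem one_sub_le {p : ℝ} (h0 : 0 ≤ p) (h1 : p ≤ 1) : 1 - p ≤ Real.exp (-(p + p ^ 2 / 2)) := by
  have h := anti2 (Set.mem_Icc.mpr ⟨le_rfl, zero_le_one⟩) (Set.mem_Icc.mpr ⟨h0, h1⟩) h0
  simp only [sub_zero, one_mul, ne_eq, OfNat.ofNat_ne_zero, not_false_eq_true, zero_pow, zero_div,
    add_zero, Real.exp_zero] at h
  rw [Real.exp_neg, ← one_div, le_div_iff₀ (Real.exp_pos _)]
  exact h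

theorem exp_bound : Real.exp (-(7 / 2)) ≤ 1 / 27 := by
  rw [Real.exp_neg, ← one_div]
  apply one_div_le_one_div_of_le (by norm_num)
  have h1 : (2.7182818283 : ℝ) < Real.exp 1 := Real.exp_one_gt_d9
  have h2 : (1 : ℝ) / 2 + 1 ≤ Real.exp (1 / 2) := Real.add_one_le_exp _
  have h3 : Real.exp (7 / 2) = Real.exp 1 ^ 3 * Real.exp (1 / 2) := by
    rw [← Real.exp_nat_mul, ← Real.exp_add]
    congr 1
    norm_num
  rw [h3]
  have h4 : (20 : ℝ) ≤ Real.exp 1 ^ 3 := by
    calc (20 : ℝ) ≤ 2.7182818283 ^ 3 := by norm_num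
      _ ≤ Real.exp 1 ^ 3 := pow_le_pow_left₀ (by norm_num) h1.le 3
  nlinarith [Real.exp_pos (1 / 2 : ℝ)]

variable {k : ℕ}

/-- the mass of the sets containing `j` -/
noncomputable def pp (c : Finset (Fin k) → ℝ) (j : Fin k) : ℝ := ∑ A with j ∈ A, c A

theorem pp_nonneg {c : Finset (Fin k) → ℝ} (hc : ∀ A, 0 ≤ c A) (j : Fin k) : 0 ≤ pp c j :=
  Finset.sum_nonneg (fun A _ => hc A)

theorem pp_le {c : Finset (Fin k) → ℝ} (hc : ∀ A, 0 ≤ c A) (h1 : ∑ A, c A = 1) (j : Fin k) :
    pp c j ≤ 1 := by
  rw [← h1]
  exact Finset.sum_le_sum_of_subset_of_nonneg (Finset.filter_subset _ _) (fun A _ _ => hc A)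

theorem one_sub_pp {c : Finset (Fin k) → ℝ} (h1 : ∑ A, c A = 1) (j : Fin k) :
    1 - pp c j = ∑ A with j ∉ A, c A := by
  have h := Finset.sum_filter_add_sum_filter_not (Finset.univ : Finset (Finset (Fin k)))
    (fun A => j ∈ A) c
  unfold pp
  rw [h1] at h
  linarith

theorem sum_pp (c : Finset (Fin k) → ℝ) : ∑ j, pp c j = ∑ A, c A * (A.card : ℝ) := by
  unfold pp
  simp_rw [Finset.sum_filter]
  rw [Finset.sum_comm]
  refine Finset.sum_congr rfl (fun A _ => ?_)
  rw [Finset.sum_ite_mem, Finset.univ_inter, Finset.sum_const, nsmul_eq_mul]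
  ring

theorem sum_mul (c d : Finset (Fin k) → ℝ) (s : Finset (Fin k)) :
    ∑ j ∈ s, (∑ A with j ∈ A, c A) * (∑ A with j ∈ A, d A)
      = ∑ A, ∑ B, c A * d B * ((s ∩ (A ∩ B)).card : ℝ) := by
  simp_rw [Finset.sum_filter, Finset.sum_mul_sum]
  rw [Finset.sum_comm]
  refine Finset.sum_congr rfl (fun A _ => ?_)
  rw [Finset.sum_comm]
  refine Finset.sum_congr rfl (fun B _ => ?_)
  have h1 : ∀ j ∈ s, (if j ∈ A then c A else 0) * (if j ∈ B then d B else 0)
      = if j ∈ A ∩ B then c A * d B else 0 := by
    intro j _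
    by_cases hA : j ∈ A <;> by_cases hB : j ∈ B <;> simp [hA, hB]
  rw [Finset.sum_congr rfl h1, Finset.sum_ite_mem, Finset.sum_const, nsmul_eq_mul]
  ring

theorem prod_zero {c : Finset (Fin k) → ℝ} (i : Fin k) (h : 1 - pp c i = 0) :
    ∏ j, (1 - pp c j) = 0 := Finset.prod_eq_zero (Finset.mem_univ i) h

/-- the main statement in terms of `pp` -/
theorem fam (c : Finset (Fin k) → ℝ) (hc : ∀ A, 0 ≤ c A) (h1 : ∑ A, c A = 1)
    (hI : ∀ A B, c A ≠ 0 → c B ≠ 0 → (A ∩ B).Nonempty) :
    ∏ j, (1 - pp c j) ≤ 1 / 27 := by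
  have hne : ∀ A, c A ≠ 0 → A.Nonempty := by
    intro A hA
    have := hI A A hA hA
    simpa using this
  by_cases hs1 : ∃ A, c A ≠ 0 ∧ A.card = 1
  · obtain ⟨A, hA, hcard⟩ := hs1
    obtain ⟨i, rfl⟩ := Finset.card_eq_one.mp hcard
    have h0 : 1 - pp c i = 0 := by
      rw [one_sub_pp h1]
      apply Finset.sum_eq_zero
      intro B hB
      by_contra hcB
      obtain ⟨x, hx⟩ := hI _ B hA hcB
      simp only [Finset.mem_inter, Finset.mem_singleton] at hx
      simp only [Finset.mem_filter, Finset.mem_univ, true_and] at hB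
      exact hB (hx.1 ▸ hx.2)
    rw [prod_zero i h0]
    norm_num
  by_cases hs2 : ∃ A, c A ≠ 0 ∧ A.card = 2
  · obtain ⟨A, hA, hcard⟩ := hs2
    obtain ⟨i0, j0, hij, rfl⟩ := Finset.card_eq_two.mp hcard
    -- every member contains `i0` or `j0`
    have hmeet : ∀ B, c B ≠ 0 → i0 ∈ B ∨ j0 ∈ B := by
      intro B hB
      obtain ⟨x, hx⟩ := hI _ B hA hB
      simp only [Finset.mem_inter, Finset.mem_insert, Finset.mem_singleton] at hx
      rcases hx.1 with h | h
      · left; rw [← h]; exact hx.2
      · right; rw [← h]; exact hx.2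
    set ca : Finset (Fin k) → ℝ := fun B => if j0 ∈ B then 0 else c B with hca
    set cb : Finset (Fin k) → ℝ := fun B => if i0 ∈ B then 0 else c B with hcb
    have hca0 : ∀ B, 0 ≤ ca B := fun B => by simp only [hca]; split_ifs; exacts [le_rfl, hc B]
    have hcb0 : ∀ B, 0 ≤ cb B := fun B => by simp only [hcb]; split_ifs; exacts [le_rfl, hc B]
    set a : ℝ := ∑ B, ca B with ha
    set b : ℝ := ∑ B, cb B with hb
    have ha0 : 0 ≤ a := Finset.sum_nonneg (fun B _ => hca0 B)
    have hb0 : 0 ≤ b := Finset.sum_nonneg (fun B _ => hcb0 B)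
    have hpa : 1 - pp c j0 = a := by
      rw [one_sub_pp h1, Finset.sum_filter, ha]
      refine Finset.sum_congr rfl (fun B _ => ?_)
      simp only [hca]
      by_cases h : j0 ∈ B <;> simp [h]
    have hpb : 1 - pp c i0 = b := by
      rw [one_sub_pp h1, Finset.sum_filter, hb]
      refine Finset.sum_congr rfl (fun B _ => ?_)
      simp only [hcb]
      by_cases h : i0 ∈ B <;> simp [h]
    have hab : a + b ≤ 1 := by
      rw [ha, hb, ← Finset.sum_add_distrib, ← h1]
      apply Finset.sum_le_sum
      intro B _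
      simp only [hca, hcb]
      by_cases hi : i0 ∈ B <;> by_cases hj : j0 ∈ B
      · simp [hi, hj, hc B]
      · simp [hi, hj]
      · simp [hi, hj]
      · have : c B = 0 := by
          by_contra h
          rcases hmeet B h with h | h
          · exact hi h
          · exact hj h
        simp [hi, hj, this]
    rcases eq_or_lt_of_le ha0 with h0 | hapos
    · rw [prod_zero j0 (by rw [hpa, ← h0])]
      norm_num
    rcases eq_or_lt_of_le hb0 with h0 | hbpos
    · rw [prod_zero i0 (by rw [hpb, ← h0])]
      norm_num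
    set s : Finset (Fin k) := (Finset.univ.erase i0).erase j0 with hs
    have hprod : ∏ j, (1 - pp c j) = a * b * ∏ j ∈ s, (1 - pp c j) := by
      rw [← Finset.mul_prod_erase Finset.univ _ (Finset.mem_univ i0),
        ← Finset.mul_prod_erase (Finset.univ.erase i0) _
          (show j0 ∈ Finset.univ.erase i0 by simp [hij.symm]), hpa, hpb]
      ring
    set u : Fin k → ℝ := fun j => (∑ B with j ∈ B, ca B) / a with hu
    set v : Fin k → ℝ := fun j => (∑ B with j ∈ B, cb B) / b with hv
    have hu0 : ∀ j, 0 ≤ u j := fun j => div_nonneg (Finset.sum_nonneg (fun B _ => hca0 B)) ha0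
    have hv0 : ∀ j, 0 ≤ v j := fun j => div_nonneg (Finset.sum_nonneg (fun B _ => hcb0 B)) hb0
    have hu1 : ∀ j, u j ≤ 1 := fun j => by
      simp only [hu]
      rw [div_le_one hapos, ha]
      exact Finset.sum_le_sum_of_subset_of_nonneg (Finset.filter_subset _ _) (fun B _ _ => hca0 B)
    have hv1 : ∀ j, v j ≤ 1 := fun j => by
      simp only [hv]
      rw [div_le_one hbpos, hb]
      exact Finset.sum_le_sum_of_subset_of_nonneg (Finset.filter_subset _ _) (fun B _ _ => hcb0 B)
    have hsum : 1 ≤ ∑ j ∈ s, u j * v j := by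
      have e1 : ∑ j ∈ s, u j * v j
          = (∑ A, ∑ B, ca A * cb B * ((s ∩ (A ∩ B)).card : ℝ)) / (a * b) := by
        rw [← sum_mul, Finset.sum_div]
        refine Finset.sum_congr rfl (fun j _ => ?_)
        simp only [hu, hv]
        field_simp
      rw [e1, le_div_iff₀ (mul_pos hapos hbpos), one_mul, ha, hb, Finset.sum_mul_sum]
      apply Finset.sum_le_sum
      intro A _
      apply Finset.sum_le_sum
      intro B _
      by_cases hz : ca A * cb B = 0
      · rw [hz]; simp
      · have hA : ca A ≠ 0 := left_ne_zero_of_mul hz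
        have hB : cb B ≠ 0 := right_ne_zero_of_mul hz
        have hjA : j0 ∉ A := by
          intro h
          exact hA (by simp [hca, h])
        have hiB : i0 ∉ B := by
          intro h
          exact hB (by simp [hcb, h])
        have hcA : c A ≠ 0 := by
          intro h
          exact hA (by simp [hca, h])
        have hcB : c B ≠ 0 := by
          intro h
          exact hB (by simp [hcb, h])
        obtain ⟨x, hx⟩ := hI A B hcA hcB
        rw [Finset.mem_inter] at hx
        have hxs : x ∈ s ∩ (A ∩ B) := by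
          rw [Finset.mem_inter, Finset.mem_inter]
          refine ⟨?_, hx⟩
          rw [hs, Finset.mem_erase, Finset.mem_erase]
          refine ⟨?_, ?_, Finset.mem_univ _⟩
          · rintro rfl
            exact hjA hx.1
          · rintro rfl
            exact hiB hx.2
        have hcard : (1 : ℝ) ≤ ((s ∩ (A ∩ B)).card : ℝ) := by
          exact_mod_cast Finset.card_pos.mpr ⟨x, hxs⟩
        have hnn : 0 ≤ ca A * cb B := mul_nonneg (hca0 A) (hcb0 B)
        nlinarith
    have hT := stmt_TWO (Fin k) s a b u v ha0 hb0 hab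
      (fun j _ => ⟨hu0 j, hu1 j, hv0 j, hv1 j⟩) hsum
    refine le_trans ?_ hT
    rw [hprod]
    apply mul_le_mul_of_nonneg_left _ (mul_nonneg ha0 hb0)
    apply Finset.prod_le_prod
    · intro j _
      have := pp_le hc h1 j
      linarith
    · intro j _
      have e1 : a * u j = ∑ B with j ∈ B, ca B := by
        simp only [hu]
        field_simp
      have e2 : b * v j = ∑ B with j ∈ B, cb B := by
        simp only [hv]
        field_simp
      have e3 : (∑ B with j ∈ B, ca B) + (∑ B with j ∈ B, cb B) ≤ pp c j := by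
        unfold pp
        rw [← Finset.sum_add_distrib]
        apply Finset.sum_le_sum
        intro B _
        simp only [hca, hcb]
        by_cases hi : i0 ∈ B <;> by_cases hj : j0 ∈ B
        · simp [hi, hj, hc B]
        · simp [hi, hj]
        · simp [hi, hj]
        · have : c B = 0 := by
            by_contra h
            rcases hmeet B h with h | h
            · exact hi h
            · exact hj h
          simp [hi, hj, this]
      rw [e1, e2]
      linarith
  · -- all members have at least three elements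
    have h3 : ∀ A, c A ≠ 0 → 3 ≤ A.card := by
      intro A hA
      have h0 := Finset.card_pos.mpr (hne A hA)
      by_contra hlt
      push Not at hlt
      interval_cases h : A.card
      · exact hs1 ⟨A, hA, h⟩
      · exact hs2 ⟨A, hA, h⟩
    have hS1 : 3 ≤ ∑ j, pp c j := by
      rw [sum_pp]
      calc (3 : ℝ) = ∑ A, c A * 3 := by rw [← Finset.sum_mul, h1]; norm_num
        _ ≤ ∑ A, c A * (A.card : ℝ) := by
            apply Finset.sum_le_sum
            intro A _
            by_cases hA : c A = 0
            · simp [hA]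
            · have : (3 : ℝ) ≤ (A.card : ℝ) := by exact_mod_cast h3 A hA
              exact mul_le_mul_of_nonneg_left this (hc A)
    have hS2 : 1 ≤ ∑ j, pp c j * pp c j := by
      have e := sum_mul c c (Finset.univ : Finset (Fin k))
      unfold pp
      rw [e]
      calc (1 : ℝ) = ∑ A, ∑ B, c A * c B := by
            rw [← Finset.sum_mul_sum, h1]
            norm_num
        _ ≤ _ := by
            apply Finset.sum_le_sum
            intro A _
            apply Finset.sum_le_sum
            intro B _
            by_cases hz : c A * c B = 0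
            · rw [hz]; simp
            · have hA : c A ≠ 0 := left_ne_zero_of_mul hz
              have hB : c B ≠ 0 := right_ne_zero_of_mul hz
              have hcard : (1 : ℝ) ≤ ((Finset.univ ∩ (A ∩ B)).card : ℝ) := by
                rw [Finset.univ_inter]
                exact_mod_cast Finset.card_pos.mpr (hI A B hA hB)
              have hnn : 0 ≤ c A * c B := mul_nonneg (hc A) (hc B)
              nlinarith
    calc ∏ j, (1 - pp c j) ≤ ∏ j, Real.exp (-(pp c j + pp c j ^ 2 / 2)) := by
          apply Finset.prod_le_prod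
          · intro j _
            have := pp_le hc h1 j
            linarith
          · intro j _
            exact one_sub_le (pp_nonneg hc j) (pp_le hc h1 j)
      _ = Real.exp (∑ j, -(pp c j + pp c j ^ 2 / 2)) := by rw [Real.exp_sum]
      _ ≤ Real.exp (-(7 / 2)) := by
          apply Real.exp_le_exp.mpr
          rw [Finset.sum_neg_distrib, Finset.sum_add_distrib]
          have e : ∑ j, pp c j ^ 2 / 2 = (∑ j, pp c j * pp c j) / 2 := by
            rw [Finset.sum_div]
            exact Finset.sum_congr rfl (fun j _ => by rw [sq])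
          rw [e]
          linarith
      _ ≤ 1 / 27 := exp_bound

end Pool.Agent.TD.FAMAux

namespace Pool.Agent.TD

open Finset

theorem stmt_FAM : Stmt_FAM := by
  intro k c hc h1 hI
  exact FAMAux.fam c hc h1 hI

end Pool.Agent.TD
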