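import Pool.Agent.Work.MP_1ce445_co.Interface

/-!
FAMS: the stable form of the inequality for intersecting families, and UP: the upper bound.
-/

namespace Pool.Agent.TD

open Finset

/-- a small error in every factor -/
theorem prod_add_le {ι : Type*} (s : Finset ι) (x : ι → ℝ) (η : ℝ) (hx : ∀ i ∈ s, 0 ≤ x i ∧ x i ≤ 1)
    (h0 : 0 ≤ η) (h1 : η ≤ 1) :
    ∏ i ∈ s, (x i + η) ≤ ∏ i ∈ s, x i + (2 ^ s.card - 1) * η := by
  classical
  induction s using Finset.induction_on with
  | empty => simp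
  | insert a s ha ih =>
    rw [prod_insert ha, prod_insert ha, card_insert_of_notMem ha]
    have hxa := hx a (mem_insert_self a s)
    have hxs : ∀ i ∈ s, 0 ≤ x i ∧ x i ≤ 1 := fun i hi => hx i (mem_insert_of_mem hi)
    have ih' := ih hxs
    have hP0 : 0 ≤ ∏ i ∈ s, x i := prod_nonneg (fun i hi => (hxs i hi).1)
    have hP1 : ∏ i ∈ s, x i ≤ 1 := prod_le_one (fun i hi => (hxs i hi).1) (fun i hi => (hxs i hi).2)
    have hM : (0 : ℝ) ≤ 2 ^ s.card - 1 := by
      have : (1 : ℝ) ≤ 2 ^ s.card := one_le_pow₀ (by norm_num)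
      linarith
    have hMη : 0 ≤ (2 ^ s.card - 1) * η := mul_nonneg hM h0
    calc (x a + η) * ∏ i ∈ s, (x i + η)
        ≤ (x a + η) * (∏ i ∈ s, x i + (2 ^ s.card - 1) * η) :=
          mul_le_mul_of_nonneg_left ih' (by linarith [hxa.1])
      _ = x a * ∏ i ∈ s, x i + η * ∏ i ∈ s, x i + (x a + η) * ((2 ^ s.card - 1) * η) := by ring
      _ ≤ x a * ∏ i ∈ s, x i + η * 1 + 2 * ((2 ^ s.card - 1) * η) := by
          have e1 : η * ∏ i ∈ s, x i ≤ η * 1 := mul_le_mul_of_nonneg_left hP1 h0
          have e2 : (x a + η) * ((2 ^ s.card - 1) * η) ≤ 2 * ((2 ^ s.card - 1) * η) :=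
            mul_le_mul_of_nonneg_right (by linarith [hxa.2]) hMη
          linarith
      _ = x a * ∏ i ∈ s, x i + (2 ^ (s.card + 1) - 1) * η := by
          rw [pow_succ]
          ring

theorem stmt_FAMS (hF : Stmt_FAM) : Stmt_FAMS := by
  classical
  intro k ε hε
  set e := min ε (1 / 2) with he
  have he0 : 0 < e := lt_min hε (by norm_num)
  have heε : e ≤ ε := min_le_left _ _
  have heh : e ≤ 1 / 2 := min_le_right _ _
  set s : ℝ := e / 4 ^ k with hs
  have hs0 : 0 < s := by positivity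
  refine ⟨s ^ 2, by positivity, ?_⟩
  intro c hc0 hc1 hcd
  set η : ℝ := 2 ^ k * s with hη
  have hη0 : 0 ≤ η := by positivity
  have h4 : (4 : ℝ) ^ k = 2 ^ k * 2 ^ k := by
    rw [← mul_pow]
    norm_num
  have hη2 : 2 ^ k * η = e := by
    rw [hη, hs, h4]
    field_simp
  have h2k : (1 : ℝ) ≤ 2 ^ k := one_le_pow₀ (by norm_num)
  have hηe : η ≤ e := by
    rw [← hη2]
    nlinarith
  have hηh : η ≤ 1 / 2 := hηe.trans heh
  set m : ℝ := ∑ A : Finset (Fin k), if s < c A then c A else 0 with hm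
  have hm1 : m ≤ 1 := by
    rw [← hc1]
    refine sum_le_sum (fun A _ => ?_)
    split_ifs
    · exact le_rfl
    · exact hc0 A
  have hmη : 1 - η ≤ m := by
    have h1 : ∑ A : Finset (Fin k), c A ≤ ∑ A : Finset (Fin k), ((if s < c A then c A else 0) + s) := by
      refine sum_le_sum (fun A _ => ?_)
      split_ifs with h
      · linarith
      · linarith [not_lt.1 h]
    rw [sum_add_distrib, hc1, sum_const, Finset.card_univ, Fintype.card_finset, Fintype.card_fin,
      nsmul_eq_mul] at h1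
    push_cast at h1
    linarith
  have hm0 : 0 < m := by linarith
  set c' : Finset (Fin k) → ℝ := fun A => if s < c A then c A / m else 0 with hc'
  have hc'0 : ∀ A, 0 ≤ c' A := by
    intro A
    rw [hc']
    dsimp only
    split_ifs
    · exact div_nonneg (hc0 A) hm0.le
    · exact le_rfl
  have hc'm : ∀ A, m * c' A = if s < c A then c A else 0 := by
    intro A
    rw [hc']
    dsimp only
    split_ifs
    · field_simp
    · exact mul_zero _
  have hc'1 : ∑ A, c' A = 1 := by
    have h1 : m * ∑ A, c' A = m := by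
      rw [mul_sum]
      exact sum_congr rfl (fun A _ => hc'm A)
    have h2 : m * (∑ A, c' A - 1) = 0 := by rw [mul_sub, h1, mul_one, sub_self]
    rcases mul_eq_zero.1 h2 with h3 | h3
    · exact absurd h3 hm0.ne'
    · linarith
  have hint : ∀ A B, c' A ≠ 0 → c' B ≠ 0 → (A ∩ B).Nonempty := by
    intro A B hA hB
    by_contra hne
    rw [Finset.not_nonempty_iff_eq_empty] at hne
    have h1 := hcd A B hne
    have hA' : s < c A := by
      by_contra h
      exact hA (if_neg h)
    have hB' : s < c B := by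
      by_contra h
      exact hB (if_neg h)
    nlinarith
  have hmain := hF k c' hc'0 hc'1 hint
  have hp' : ∀ j, 0 ≤ ∑ A with j ∈ A, c' A ∧ ∑ A with j ∈ A, c' A ≤ 1 := by
    intro j
    refine ⟨sum_nonneg (fun A _ => hc'0 A), ?_⟩
    rw [← hc'1]
    exact sum_le_sum_of_subset_of_nonneg (filter_subset _ _) (fun A _ _ => hc'0 A)
  have hp : ∀ j, m * ∑ A with j ∈ A, c' A ≤ ∑ A with j ∈ A, c A := by
    intro j
    rw [mul_sum]
    refine sum_le_sum (fun A _ => ?_)
    rw [hc'm]
    split_ifs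
    · exact le_rfl
    · exact hc0 A
  have hp1 : ∀ j, ∑ A with j ∈ A, c A ≤ 1 := by
    intro j
    rw [← hc1]
    exact sum_le_sum_of_subset_of_nonneg (filter_subset _ _) (fun A _ _ => hc0 A)
  calc ∏ j, (1 - ∑ A with j ∈ A, c A) ≤ ∏ j, ((1 - ∑ A with j ∈ A, c' A) + η) := by
        refine prod_le_prod (fun j _ => by linarith [hp1 j]) (fun j _ => ?_)
        have h1 := hp j
        obtain ⟨h2, h3⟩ := hp' j
        nlinarith
    _ ≤ ∏ j, (1 - ∑ A with j ∈ A, c' A) + (2 ^ (univ : Finset (Fin k)).card - 1) * η := by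
        refine prod_add_le _ _ _ (fun j _ => ?_) hη0 (by linarith)
        obtain ⟨h2, h3⟩ := hp' j
        constructor <;> linarith
    _ ≤ 1 / 27 + ε := by
        rw [Finset.card_univ, Fintype.card_fin]
        have : (2 ^ k - 1) * η ≤ e := by
          rw [sub_mul, hη2]
          linarith
        linarith

end Pool.Agent.TD
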