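import Pool.Agent.Work.MP_1ce445_co.Interface

namespace Pool.Agent.TD

open Finset

theorem stmt_GRE : Stmt_GRE := by
  classical
  intro n t G _ ht hG
  choose f hf using hG
  let W : Finset (Fin n) := univ.filter (fun v => t ^ 2 ≤ G.degree v)
  let L : Finset (Fin n) := univ.filter (fun v => G.degree v < t ^ 2)
  let hit : Finset (Fin n) → Finset (Fin n) := fun X => W.filter (fun v => ∃ x ∈ X, G.Adj v x)
  let F : Finset (Finset (Fin n)) := univ.filter (fun X => t * X.card ≤ (hit X).card)
  have hF : F.Nonempty := ⟨∅, by simp [F]⟩
  obtain ⟨X, hXF, hmax⟩ := Finset.exists_max_image F Finset.card hF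
  have hX : t * X.card ≤ (hit X).card := (Finset.mem_filter.1 hXF).2
  let Un : Finset (Fin n) := W.filter (fun v => ¬ ∃ x ∈ X, G.Adj v x)
  have hnew : ∀ x, (Un.filter (fun v => G.Adj v x)).card ≤ t := by
    intro x
    by_cases hxX : x ∈ X
    · have : Un.filter (fun v => G.Adj v x) = ∅ := by
        rw [Finset.filter_eq_empty_iff]
        intro v hv hvx
        exact (Finset.mem_filter.1 hv).2 ⟨x, hxX, hvx⟩
      rw [this]
      simp
    · by_contra hcon
      push Not at hcon
      have h1 : insert x X ∈ F := by
        simp only [F, Finset.mem_filter, Finset.mem_univ, true_and]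
        rw [Finset.card_insert_of_notMem hxX]
        have h2 : (hit X) ∪ (Un.filter (fun v => G.Adj v x)) ⊆ hit (insert x X) := by
          intro v hv
          rw [Finset.mem_union] at hv
          rcases hv with hv | hv
          · obtain ⟨hvW, y, hy, hvy⟩ := Finset.mem_filter.1 hv
            exact Finset.mem_filter.2 ⟨hvW, y, Finset.mem_insert_of_mem hy, hvy⟩
          · obtain ⟨hvU, hvx⟩ := Finset.mem_filter.1 hv
            exact Finset.mem_filter.2 ⟨(Finset.mem_filter.1 hvU).1, x,
              Finset.mem_insert_self _ _, hvx⟩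
        have h3 : Disjoint (hit X) (Un.filter (fun v => G.Adj v x)) := by
          rw [Finset.disjoint_left]
          intro v hv hv2
          exact (Finset.mem_filter.1 (Finset.mem_filter.1 hv2).1).2 (Finset.mem_filter.1 hv).2
        have h4 := Finset.card_le_card h2
        rw [Finset.card_union_of_disjoint h3] at h4
        nlinarith
      have h5 := hmax _ h1
      rw [Finset.card_insert_of_notMem hxX] at h5
      omega
  have hUn : t * Un.card ≤ n := by
    have h1 : ∑ v ∈ Un, G.degree v ≤ t * n := by
      have h2 : ∀ v, G.degree v = ∑ x : Fin n, if G.Adj v x then 1 else 0 := by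
        intro v
        rw [← SimpleGraph.card_neighborFinset_eq_degree, Finset.sum_boole]
        simp only [Nat.cast_id]
        congr 1
        ext x
        simp
      calc ∑ v ∈ Un, G.degree v = ∑ v ∈ Un, ∑ x : Fin n, (if G.Adj v x then 1 else 0) :=
            Finset.sum_congr rfl fun v _ => h2 v
        _ = ∑ x : Fin n, ∑ v ∈ Un, (if G.Adj v x then 1 else 0) := Finset.sum_comm
        _ = ∑ x : Fin n, (Un.filter (fun v => G.Adj v x)).card := by
            refine Finset.sum_congr rfl fun x _ => ?_
            rw [Finset.sum_boole]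
            simp
        _ ≤ ∑ _x : Fin n, t := Finset.sum_le_sum fun x _ => hnew x
        _ = t * n := by simp [mul_comm]
    have h3 : Un.card * t ^ 2 ≤ ∑ v ∈ Un, G.degree v := by
      rw [← smul_eq_mul]
      refine Finset.card_nsmul_le_sum _ _ _ fun v hv => ?_
      exact (Finset.mem_filter.1 (Finset.mem_filter.1 hv).1).2
    have h4 : t * (t * Un.card) ≤ t * n := by
      calc t * (t * Un.card) = Un.card * t ^ 2 := by ring
        _ ≤ t * n := h3.trans h1
    exact Nat.le_of_mul_le_mul_left h4 ht
  let S : Finset (Fin n) := X ∪ ((Un ∪ L).image f)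
  have hS : IsTDSet G S := by
    intro v
    by_cases hv : v ∈ Un ∪ L
    · exact ⟨f v, Finset.mem_union_right _ (Finset.mem_image_of_mem f hv), hf v⟩
    · rw [Finset.mem_union, not_or] at hv
      have hvW : v ∈ W := by
        have := hv.2
        simp only [L, W, Finset.mem_filter, Finset.mem_univ, true_and, not_lt] at this ⊢
        exact this
      have : ∃ x ∈ X, G.Adj v x := by
        by_contra hcon
        exact hv.1 (Finset.mem_filter.2 ⟨hvW, hcon⟩)
      obtain ⟨x, hx, hvx⟩ := this
      exact ⟨x, Finset.mem_union_left _ hx, hvx⟩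
  have h1 := gammaT_le hS
  have h2 : S.card ≤ X.card + (Un.card + L.card) :=
    (Finset.card_union_le _ _).trans (Nat.add_le_add_left
      ((Finset.card_image_le).trans (Finset.card_union_le _ _)) _)
  have h3 : (hit X).card ≤ n := by
    have := Finset.card_le_univ (hit X)
    simpa using this
  calc t * gammaT G ≤ t * (X.card + (Un.card + L.card)) := Nat.mul_le_mul_left _ (h1.trans h2)
    _ = t * X.card + t * Un.card + t * L.card := by ring
    _ ≤ n + n + t * L.card := by omega
    _ = t * L.card + 2 * n := by ring

end Pool.Agent.TD
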