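import Pool.Agent.Work.MP_1ce445_co.Interface

/-!
Block LOW of MP_1ce445_co: `(n-4)^(k-3) (2 (n/6))^3 ≤ P n k` for large `n` (explicit
factorization: three dense colours and `k - 3` sparse colours).
-/

namespace Pool.Agent.TD.LOWAux

open Finset Pool.Agent.TD

/-- adjacency in the sparse colour `t` -/
def Sp (n t x y : ℤ) : Prop :=
  x ≠ y ∧ (x + y = 2 * t ∨ x + y = 2 * t + n ∨
    ((x + y = 2 * t + 1 ∨ x + y = 2 * t + 1 + n) ∧
      (x = t ∨ y = t ∨ 2 * x = 2 * t + n ∨ 2 * y = 2 * t + n)))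

theorem Sp_symm {n t x y : ℤ} (h : Sp n t x y) : Sp n t y x := by
  unfold Sp at *
  omega

theorem Sp_disj {n K t t' x y : ℤ} (hn : 6 * K + 6 < n) (ht : 0 ≤ t) (htK : t < K)
    (ht' : 0 ≤ t') (htK' : t' < K) (hne : t ≠ t') (h : Sp n t x y) (h' : Sp n t' x y) :
    False := by
  unfold Sp at *
  omega

theorem Sp_not {n K t x y : ℤ} (hn : 0 ≤ n) (ht : 0 ≤ t) (htK : t < K)
    (h : (2 * K ≤ x + y ∧ x + y < n) ∨ n + 2 * K ≤ x + y) : ¬ Sp n t x y := by
  unfold Sp
  omega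

theorem Sp_pos {n K t x : ℤ} (hn : 6 * K + 6 < n) (ht : 0 ≤ t) (htK : t < K) (hx : 0 ≤ x)
    (hx' : x < n) : ∃ y, (0 ≤ y ∧ y < n) ∧ Sp n t x y := by
  unfold Sp
  by_cases h1 : x = t
  · exact ⟨t + 1, by omega, by omega⟩
  by_cases h2 : 2 * x = 2 * t + n
  · exact ⟨x + 1, by omega, by omega⟩
  by_cases h3 : 2 * t - x < 0
  · exact ⟨2 * t - x + n, by omega, by omega⟩
  · exact ⟨2 * t - x, by omega, by omega⟩

/-- a vertex outside of a total dominating set of the sparse colour `t` is one of four -/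
theorem Sp_key {n K t a : ℤ} (hn : 6 * K + 6 < n) (ht : 0 ≤ t) (htK : t < K) (S : ℤ → Prop)
    (hS : ∀ v, 0 ≤ v → v < n → ∃ w, S w ∧ (0 ≤ w ∧ w < n) ∧ Sp n t v w) (ha : 0 ≤ a)
    (ha' : a < n) (hSa : ¬ S a) :
    a = t ∨ a = (if t = 0 then n - 1 else t - 1) ∨ a = (2 * t + n) / 2 ∨
      a = (2 * t + n) / 2 - 1 := by
  by_cases h1 : a = t
  · exact Or.inl h1
  by_cases h2 : 2 * a = 2 * t + n
  · right; right; left; omega
  have h3 : ∃ v, (0 ≤ v ∧ v < n) ∧ v ≠ a ∧ (a + v = 2 * t ∨ a + v = 2 * t + n) := by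
    by_cases h3 : 2 * t - a < 0
    · exact ⟨2 * t - a + n, by omega, by omega, by omega⟩
    · exact ⟨2 * t - a, by omega, by omega, by omega⟩
  obtain ⟨v, hv, hva, hv'⟩ := h3
  obtain ⟨w, hw, hwn, hA⟩ := hS v hv.1 hv.2
  have hwa : w ≠ a := fun h => hSa (h ▸ hw)
  unfold Sp at hA
  split_ifs <;> omega

/-- the class of a vertex -/
def cl (n q a : ℤ) : Fin 4 :=
  if a < q ∨ n - 1 - a < q then 0 else
  if a < 2 * q ∨ n - 1 - a < 2 * q then 1 else
  if a < 3 * q ∨ n - 1 - a < 3 * q then 2 else 3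

/-- the dense colour of a pair with classes `A`, `B` (`m`: mirror pair) -/
def D (A B : Fin 4) (m : Bool) : Fin 3 :=
  if A = 3 then (if B = 3 then 0 else Fin.ofNat 3 (B.val + 1)) else
  if B = 3 then Fin.ofNat 3 (A.val + 1) else
  if A = B then (if m then Fin.ofNat 3 A.val else Fin.ofNat 3 (A.val + 1)) else
  Fin.ofNat 3 (3 - A.val - B.val)

theorem three_ne : ∀ i : Fin 3, (3 : Fin 4) ≠ i.castSucc := by decide

theorem D_symm : ∀ A B m, D A B m = D B A m := by decide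

theorem D_own : ∀ (i : Fin 3) B m, D i.castSucc B m = i → B = i.castSucc ∧ m = true := by decide

theorem D_mir : ∀ i : Fin 3, D i.castSucc i.castSucc true = i := by decide

theorem D_ex : ∀ (A : Fin 4) (i : Fin 3), A ≠ i.castSucc → ∃ l : Fin 3, ∀ m, l.castSucc ≠ A ∧
    D A l.castSucc m = i := by decide

theorem cl_mir {n q x y : ℤ} (h : x + y = n - 1) : cl n q x = cl n q y := by
  unfold cl
  have h1 : n - 1 - x = y := by omega
  have h2 : n - 1 - y = x := by omega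
  rw [h1, h2]
  simp only [or_comm]

/-- lower end of a class -/
theorem cl_mem {n q a : ℤ} (hn : 6 * q ≤ n) (i : Fin 3)
    (h : (i.val * q ≤ a ∧ a < (i.val + 1) * q) ∨ (n - (i.val + 1) * q ≤ a ∧ a < n - i.val * q)) :
    cl n q a = i.castSucc := by
  unfold cl
  fin_cases i
  · simp at h
    rw [if_pos (by omega)]
    rfl
  · simp at h
    rw [if_neg (by omega), if_pos (by omega)]
    rfl
  · simp at h
    rw [if_neg (by omega), if_neg (by omega), if_pos (by omega)]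
    rfl

/-- every vertex sees a vertex of any class through a pair which is not sparse -/
theorem far {n q K x : ℤ} (hK : 0 ≤ K) (hq : 2 * K + 2 ≤ q) (hn : 6 * q ≤ n) (hx : 0 ≤ x)
    (hx' : x < n) (l : Fin 3) : ∃ b, (0 ≤ b ∧ b < n) ∧ cl n q b = l.castSucc ∧
      ((2 * K ≤ x + b ∧ x + b < n) ∨ n + 2 * K ≤ x + b) := by
  have h1 : ((2 * K ≤ x + l.val * q ∧ x + l.val * q < n) ∨ n + 2 * K ≤ x + l.val * q) ∨
      ((2 * K ≤ x + (l.val * q + q - 1) ∧ x + (l.val * q + q - 1) < n) ∨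
        n + 2 * K ≤ x + (l.val * q + q - 1)) := by
    fin_cases l
    · simp; omega
    · simp; omega
    · simp; omega
  have hb : 0 ≤ (l.val : ℤ) * q ∧ (l.val : ℤ) * q + q ≤ 3 * q := by
    fin_cases l
    · simp; omega
    · simp; omega
    · simp; omega
  rcases h1 with h1 | h1
  · refine ⟨l.val * q, by omega, cl_mem hn l (Or.inl ⟨le_refl _, ?_⟩), h1⟩
    rw [add_mul]; omega
  · refine ⟨l.val * q + q - 1, by omega, cl_mem hn l (Or.inl ⟨by omega, ?_⟩), h1⟩
    rw [add_mul]; omega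

/-- vertices -/
abbrev VV (n : ℕ) : Type := ↥(Finset.Ico (0 : ℤ) (n : ℤ))

/-- adjacency in the dense colour `i` -/
def De (n q : ℤ) (K : ℕ) (i : Fin 3) (x y : ℤ) : Prop :=
  x ≠ y ∧ (∀ t : Fin K, ¬ Sp n t.val x y) ∧ D (cl n q x) (cl n q y) (decide (x + y = n - 1)) = i

theorem De_symm {n q : ℤ} {K : ℕ} {i : Fin 3} {x y : ℤ} (h : De n q K i x y) :
    De n q K i y x := by
  obtain ⟨h1, h2, h3⟩ := h
  refine ⟨h1.symm, fun t ht => h2 t (Sp_symm ht), ?_⟩
  rw [D_symm, add_comm]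
  exact h3

/-- The factorization. -/
def GG (n K : ℕ) (q : ℤ) : Fin 3 ⊕ Fin K → SimpleGraph (VV n)
  | .inl i =>
    { Adj := fun x y => De n q K i x y
      symm := ⟨fun _ _ h => De_symm h⟩
      loopless := ⟨fun _ h => h.1 rfl⟩ }
  | .inr t =>
    { Adj := fun x y => Sp n t.val x y
      symm := ⟨fun _ _ h => Sp_symm h⟩
      loopless := ⟨fun _ h => h.1 rfl⟩ }

theorem GG_inl {n K : ℕ} {q : ℤ} {i : Fin 3} {x y : VV n} :
    (GG n K q (.inl i)).Adj x y ↔ De n q K i x y := Iff.rfl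

theorem GG_inr {n K : ℕ} {q : ℤ} {t : Fin K} {x y : VV n} :
    (GG n K q (.inr t)).Adj x y ↔ Sp n t.val x y := Iff.rfl

section

variable {n K : ℕ} {q : ℤ}

theorem GG_disj (hK : 6 * K + 6 < n) (i j : Fin 3 ⊕ Fin K) (hij : i ≠ j) (v w : VV n)
    (h : (GG n K q i).Adj v w) : ¬ (GG n K q j).Adj v w := by
  intro h'
  rcases i with i | t <;> rcases j with j | t'
  · rw [GG_inl] at h h'
    exact hij (congrArg Sum.inl (h.2.2.symm.trans h'.2.2))
  · rw [GG_inl] at h
    rw [GG_inr] at h'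
    exact h.2.1 t' h'
  · rw [GG_inl] at h'
    rw [GG_inr] at h
    exact h'.2.1 t h
  · rw [GG_inr] at h h'
    refine Sp_disj (K := (K : ℤ)) (by exact_mod_cast hK) (by positivity)
      (by exact_mod_cast t.2) (by positivity) (by exact_mod_cast t'.2) ?_ h h'
    intro h1
    exact hij (congrArg Sum.inr (Fin.ext (by exact_mod_cast h1)))

theorem GG_cover (v w : VV n) (hvw : v ≠ w) : ∃ j, (GG n K q j).Adj v w := by
  by_cases h : ∃ t : Fin K, Sp n t.val v w
  · obtain ⟨t, ht⟩ := h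
    exact ⟨.inr t, ht⟩
  · push Not at h
    exact ⟨.inl (D (cl n q v) (cl n q w) (decide ((v : ℤ) + w = n - 1))),
      fun h1 => hvw (Subtype.ext h1), h, rfl⟩

theorem GG_pos (hK : 6 * K + 6 < n) (hq : 2 * (K : ℤ) + 2 ≤ q) (hn : 6 * q ≤ n)
    (j : Fin 3 ⊕ Fin K) (v : VV n) : ∃ w, (GG n K q j).Adj v w := by
  have hv := Finset.mem_Ico.1 v.2
  rcases j with i | t
  · by_cases hc : cl n q v = i.castSucc
    · -- the mirror
      have hm : cl n q ((n : ℤ) - 1 - v) = cl n q v := cl_mir (by ring)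
      refine ⟨⟨(n : ℤ) - 1 - v, Finset.mem_Ico.2 (by omega)⟩, ?_⟩
      rw [GG_inl]
      refine ⟨?_, ?_, ?_⟩
      · intro h
        have h : (v : ℤ) = (n : ℤ) - 1 - v := h
        have h1 : cl n q v = 3 := by
          unfold cl
          rw [if_neg (by omega), if_neg (by omega), if_neg (by omega)]
        rw [h1] at hc
        exact three_ne i hc
      · intro t
        refine Sp_not (K := (K : ℤ)) (by positivity) (by positivity) (by exact_mod_cast t.2) ?_
        left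
        have : (v : ℤ) + ((n : ℤ) - 1 - v) = n - 1 := by ring
        show 2 * (K : ℤ) ≤ (v : ℤ) + ((n : ℤ) - 1 - v) ∧ (v : ℤ) + ((n : ℤ) - 1 - v) < n
        omega
      · show D (cl n q v) (cl n q ((n : ℤ) - 1 - v)) (decide ((v : ℤ) + ((n : ℤ) - 1 - v) = n - 1))
          = i
        rw [hm, hc]
        have : (v : ℤ) + ((n : ℤ) - 1 - v) = n - 1 := by ring
        rw [this]
        simpa using D_mir i
    · obtain ⟨l, hl⟩ := D_ex _ i hc
      obtain ⟨b, hb, hbc, hbs⟩ := far (K := (K : ℤ)) (by positivity) hq hn hv.1 hv.2 l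
      refine ⟨⟨b, Finset.mem_Ico.2 hb⟩, ?_⟩
      rw [GG_inl]
      refine ⟨?_, ?_, ?_⟩
      · intro h
        have h : (v : ℤ) = b := h
        exact (hl true).1 (by rw [h, hbc])
      · intro t
        exact Sp_not (K := (K : ℤ)) (by positivity) (by positivity) (by exact_mod_cast t.2) hbs
      · show D (cl n q v) (cl n q b) (decide ((v : ℤ) + b = n - 1)) = i
        rw [hbc]
        exact (hl _).2
  · obtain ⟨y, hy, hA⟩ := Sp_pos (K := (K : ℤ)) (n := (n : ℤ)) (t := (t.val : ℤ))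
      (by exact_mod_cast hK) (by positivity) (by exact_mod_cast t.2) hv.1 hv.2
    exact ⟨⟨y, Finset.mem_Ico.2 hy⟩, hA⟩

/-- dense colours -/
theorem dense_ge (hq : 2 * (K : ℤ) + 2 ≤ q) (hn : 6 * q ≤ n) (i : Fin 3) (S : Finset (VV n))
    (hS : IsTDSet (GG n K q (.inl i)) S) : 2 * q ≤ S.card := by
  have hi : (0 : ℤ) ≤ (i.val : ℤ) * q ∧ (i.val : ℤ) * q + q ≤ 3 * q := by
    fin_cases i
    · simp; omega
    · simp; omega
    · simp; omega
  have hadd : ((i.val : ℤ) + 1) * q = (i.val : ℤ) * q + q := by ring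
  have hsub : (Finset.Ico ((i.val : ℤ) * q) (((i.val : ℤ) + 1) * q) ∪
      Finset.Ico ((n : ℤ) - ((i.val : ℤ) + 1) * q) ((n : ℤ) - (i.val : ℤ) * q)) ⊆
      S.image (fun v : VV n => (v : ℤ)) := by
    intro a ha
    rw [Finset.mem_union, Finset.mem_Ico, Finset.mem_Ico] at ha
    have hcl := cl_mem hn i ha
    have har : 0 ≤ a ∧ a < n := by omega
    obtain ⟨w, hw, hvw⟩ := hS ⟨(n : ℤ) - 1 - a, Finset.mem_Ico.2 (by omega)⟩
    rw [GG_inl] at hvw
    have h1 := hvw.2.2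
    have h2 : cl n q ((n : ℤ) - 1 - a) = cl n q a := cl_mir (by ring)
    change D (cl n q ((n : ℤ) - 1 - a)) (cl n q w) (decide ((n : ℤ) - 1 - a + w = n - 1)) = i at h1
    rw [h2, hcl] at h1
    have h3 := (D_own i _ _ h1).2
    rw [decide_eq_true_eq] at h3
    rw [Finset.mem_image]
    exact ⟨w, hw, by omega⟩
  have h1 := Finset.card_le_card hsub
  have h2 : (S.image (fun v : VV n => (v : ℤ))).card ≤ S.card := Finset.card_image_le
  rw [Finset.card_union_of_disjoint, Int.card_Ico, Int.card_Ico] at h1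
  · omega
  · rw [Finset.disjoint_left]
    intro a ha ha'
    rw [Finset.mem_Ico] at ha ha'
    omega

/-- sparse colours -/
theorem sparse_ge (hK : 6 * K + 6 < n) (t : Fin K) (S : Finset (VV n))
    (hS : IsTDSet (GG n K q (.inr t)) S) : n - 4 ≤ S.card := by
  have hsub : Finset.Ico (0 : ℤ) n ⊆ S.image (fun v : VV n => (v : ℤ)) ∪
      {(t.val : ℤ), if (t.val : ℤ) = 0 then (n : ℤ) - 1 else (t.val : ℤ) - 1,
        (2 * (t.val : ℤ) + n) / 2, (2 * (t.val : ℤ) + n) / 2 - 1} := by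
    intro a ha
    rw [Finset.mem_union]
    by_cases h : a ∈ S.image (fun v : VV n => (v : ℤ))
    · exact Or.inl h
    · right
      have ha1 := Finset.mem_Ico.1 ha
      have := Sp_key (n := (n : ℤ)) (K := (K : ℤ)) (t := (t.val : ℤ)) (a := a)
        (by exact_mod_cast hK) (by positivity) (by exact_mod_cast t.2)
        (fun z => z ∈ S.image (fun v : VV n => (v : ℤ))) ?_ ha1.1 ha1.2 h
      · simp only [Finset.mem_insert, Finset.mem_singleton]
        exact this
      · intro v hv hv'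
        obtain ⟨w, hw, hvw⟩ := hS ⟨v, Finset.mem_Ico.2 ⟨hv, hv'⟩⟩
        exact ⟨w, Finset.mem_image_of_mem _ hw, Finset.mem_Ico.1 w.2, hvw⟩
  have h1 := Finset.card_le_card hsub
  have h2 : (S.image (fun v : VV n => (v : ℤ))).card ≤ S.card := Finset.card_image_le
  have h3 := Finset.card_union_le (S.image (fun v : VV n => (v : ℤ)))
    {(t.val : ℤ), if (t.val : ℤ) = 0 then (n : ℤ) - 1 else (t.val : ℤ) - 1,
        (2 * (t.val : ℤ) + n) / 2, (2 * (t.val : ℤ) + n) / 2 - 1}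
  have h4 := Finset.card_le_four (a := (t.val : ℤ))
    (b := if (t.val : ℤ) = 0 then (n : ℤ) - 1 else (t.val : ℤ) - 1)
    (c := (2 * (t.val : ℤ) + n) / 2) (d := (2 * (t.val : ℤ) + n) / 2 - 1)
  rw [Int.card_Ico] at h1
  omega

end

end Pool.Agent.TD.LOWAux

namespace Pool.Agent.TD

open Finset LOWAux

theorem stmt_LOW : Stmt_LOW := by
  intro k hk
  refine ⟨12 * k + 36, fun n hn => ?_⟩
  have hK : 6 * (k - 3) + 6 < n := by omega
  have hq : 2 * ((k - 3 : ℕ) : ℤ) + 2 ≤ ((n / 6 : ℕ) : ℤ) := by omega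
  have hq6 : 6 * ((n / 6 : ℕ) : ℤ) ≤ n := by omega
  have hV : Fintype.card (VV n) = n := by
    rw [Fintype.card_coe, Int.card_Ico]
    omega
  have hC : Fintype.card (Fin 3 ⊕ Fin (k - 3)) = k := by
    rw [Fintype.card_sum, Fintype.card_fin, Fintype.card_fin]
    omega
  have hpos := GG_pos (n := n) (K := k - 3) (q := ((n / 6 : ℕ) : ℤ)) hK hq hq6
  have h1 := prod_le_P' hV hC (GG n (k - 3) ((n / 6 : ℕ) : ℤ)) (GG_disj hK) GG_cover hpos
  refine le_trans ?_ h1
  rw [Fintype.prod_sum_type, mul_comm]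
  refine Nat.mul_le_mul ?_ ?_
  · have h2 : (2 * (n / 6)) ^ 3 = ∏ _j : Fin 3, 2 * (n / 6) := by
      rw [Finset.prod_const, Finset.card_univ, Fintype.card_fin]
    rw [h2]
    refine Finset.prod_le_prod' (fun j _ => le_gammaT (hpos _) (fun S hS => ?_))
    have := dense_ge (n := n) (K := k - 3) hq hq6 j S hS
    omega
  · have h2 : (n - 4) ^ (k - 3) = ∏ _j : Fin (k - 3), (n - 4) := by
      rw [Finset.prod_const, Finset.card_univ, Fintype.card_fin]
    rw [h2]
    exact Finset.prod_le_prod' (fun j _ => le_gammaT (hpos _) (fun S hS =>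
      sparse_ge hK j S hS))

end Pool.Agent.TD
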