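import Pool.Agent.Work.MP_1ce445_co.Interface

namespace Pool.Agent.TD

open Finset

theorem stmt_PAIR : Stmt_PAIR := by
  classical
  intro n k T G _ hG
  -- ordered pairs adjacent in `G j` with first coordinate of small degree
  let A : Fin k → Finset (Fin n × Fin n) := fun j =>
    univ.filter (fun p => (G j).Adj p.1 p.2 ∧ (G j).degree p.1 < T)
  let B : Fin k → Finset (Fin n × Fin n) := fun j =>
    univ.filter (fun p => (G j).Adj p.1 p.2 ∧ (G j).degree p.2 < T)
  have hA : ∀ j, (A j).card ≤ T * n := by
    intro j
    have h1 : A j ⊆ (univ : Finset (Fin n)).biUnion (fun v =>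
        if (G j).degree v < T then ((G j).neighborFinset v).image (fun w => (v, w)) else ∅) := by
      intro p hp
      simp only [A, Finset.mem_filter, Finset.mem_univ, true_and] at hp
      rw [Finset.mem_biUnion]
      refine ⟨p.1, Finset.mem_univ _, ?_⟩
      rw [if_pos hp.2]
      exact Finset.mem_image.2 ⟨p.2, by rw [SimpleGraph.mem_neighborFinset]; exact hp.1, rfl⟩
    refine (Finset.card_le_card h1).trans ?_
    refine (Finset.card_biUnion_le).trans ?_
    calc ∑ v : Fin n, (if (G j).degree v < T then
          ((G j).neighborFinset v).image (fun w => (v, w)) else ∅).card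
        ≤ ∑ _v : Fin n, T := by
          refine Finset.sum_le_sum fun v _ => ?_
          split_ifs with h
          · refine (Finset.card_image_le).trans ?_
            rw [SimpleGraph.card_neighborFinset_eq_degree]
            exact h.le
          · simp
      _ = T * n := by simp [mul_comm]
  have hB : ∀ j, (B j).card ≤ T * n := by
    intro j
    refine le_trans (le_of_eq ?_) (hA j)
    refine Finset.card_bij (fun p _ => (p.2, p.1)) ?_ ?_ ?_
    · intro p hp
      simp only [A, B, Finset.mem_filter, Finset.mem_univ, true_and] at hp ⊢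
      exact ⟨hp.1.symm, hp.2⟩
    · intro p _ q _ h
      simp only [Prod.mk.injEq] at h
      exact Prod.ext h.2 h.1
    · intro q hq
      refine ⟨(q.2, q.1), ?_, rfl⟩
      simp only [A, B, Finset.mem_filter, Finset.mem_univ, true_and] at hq ⊢
      exact ⟨hq.1.symm, hq.2⟩
  have hsub : (univ.filter (fun p : Fin n × Fin n =>
      ∀ j, (G j).degree p.1 < T ∨ (G j).degree p.2 < T)) ⊆
      (univ.image (fun v : Fin n => (v, v))) ∪ ((univ.biUnion A) ∪ (univ.biUnion B)) := by
    intro p hp
    simp only [Finset.mem_filter, Finset.mem_univ, true_and] at hp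
    by_cases h : p.1 = p.2
    · refine Finset.mem_union_left _ (Finset.mem_image.2 ⟨p.1, Finset.mem_univ _, ?_⟩)
      exact Prod.ext rfl h
    · obtain ⟨j, hj⟩ := hG.cover _ _ h
      refine Finset.mem_union_right _ ?_
      rcases hp j with h1 | h1
      · refine Finset.mem_union_left _ (Finset.mem_biUnion.2 ⟨j, Finset.mem_univ _, ?_⟩)
        simp only [A, Finset.mem_filter, Finset.mem_univ, true_and]
        exact ⟨hj, h1⟩
      · refine Finset.mem_union_right _ (Finset.mem_biUnion.2 ⟨j, Finset.mem_univ _, ?_⟩)
        simp only [B, Finset.mem_filter, Finset.mem_univ, true_and]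
        exact ⟨hj, h1⟩
  refine (Finset.card_le_card hsub).trans ?_
  refine (Finset.card_union_le _ _).trans ?_
  have h1 : (univ.image (fun v : Fin n => (v, v))).card ≤ n :=
    (Finset.card_image_le).trans (by simp)
  have h2 : (univ.biUnion A).card ≤ k * (T * n) := by
    refine (Finset.card_biUnion_le).trans ?_
    refine (Finset.sum_le_sum fun j _ => hA j).trans ?_
    simp
  have h3 : (univ.biUnion B).card ≤ k * (T * n) := by
    refine (Finset.card_biUnion_le).trans ?_
    refine (Finset.sum_le_sum fun j _ => hB j).trans ?_
    simp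
  have h4 := Finset.card_union_le (univ.biUnion A) (univ.biUnion B)
  have h5 : 2 * k * T * n = k * (T * n) + k * (T * n) := by ring
  omega

end Pool.Agent.TD
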