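import Pool.Agent.Work.MP_1ce445_co.UP
import Pool.Agent.Work.MP_1ce445_co.FAM
import Pool.Agent.Work.MP_1ce445_co.FAMS
import Pool.Agent.Work.MP_1ce445_co.GRE
import Pool.Agent.Work.MP_1ce445_co.PAIR
import Pool.Agent.Work.MP_1ce445_co.LOW

namespace Pool.Agent.TD

open Finset Filter

theorem P_upper (hU : Stmt_UP) (k : ℕ) (hk : 1 ≤ k) (ε : ℝ) (hε : 0 < ε) :
    ∃ n0 : ℕ, ∀ n ≥ n0, (P n k : ℝ) ≤ (1 / 27 + ε) * (n : ℝ) ^ k := by
  obtain ⟨n0, hn0⟩ := hU k hk ε hε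
  refine ⟨n0, fun n hn => ?_⟩
  by_cases hex : ∃ G : Fin k → SimpleGraph (Fin n), IsFact G
  · obtain ⟨G, hG, hP⟩ := exists_P hex
    rw [hP]
    push_cast
    exact hn0 n hn G hG
  · have h0 : P n k ≤ 0 := P_le fun G hG => absurd ⟨G, hG⟩ hex
    have h1 : P n k = 0 := by omega
    rw [h1]
    have : 0 ≤ (1 / 27 + ε) * (n : ℝ) ^ k := by positivity
    simpa using this

theorem stmt_B_of (hU : Stmt_UP) (hL : Stmt_LOW) : Stmt_B := by
  intro k hk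
  obtain ⟨m, rfl⟩ : ∃ m, k = m + 3 := ⟨k - 3, by omega⟩
  -- the lower function
  have hlow : Tendsto (fun n : ℕ => (1 - 4 / (n : ℝ)) ^ m * ((1 - 5 / (n : ℝ)) / 3) ^ 3) atTop
      (nhds (1 / 27)) := by
    have h4 : Tendsto (fun n : ℕ => 1 - 4 / (n : ℝ)) atTop (nhds (1 - 0)) :=
      tendsto_const_nhds.sub (tendsto_const_div_atTop_nhds_zero_nat 4)
    have h5 : Tendsto (fun n : ℕ => 1 - 5 / (n : ℝ)) atTop (nhds (1 - 0)) :=
      tendsto_const_nhds.sub (tendsto_const_div_atTop_nhds_zero_nat 5)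
    have h6 := (h4.pow m).mul ((h5.div_const 3).pow 3)
    have e : (1 - 0 : ℝ) ^ m * ((1 - 0) / 3) ^ 3 = 1 / 27 := by norm_num
    rw [e] at h6
    exact h6
  rw [Metric.tendsto_atTop]
  intro ε hε
  obtain ⟨n1, hn1⟩ := P_upper hU (m + 3) (by omega) (ε / 2) (by positivity)
  obtain ⟨n2, hn2⟩ := hL (m + 3) (by omega)
  rw [Metric.tendsto_atTop] at hlow
  obtain ⟨n3, hn3⟩ := hlow ε hε
  refine ⟨max (max n1 n2) (max n3 5), fun n hn => ?_⟩
  have hn1' : n1 ≤ n := le_trans (le_max_left _ _ |>.trans (le_max_left _ _)) hn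
  have hn2' : n2 ≤ n := le_trans (le_max_right _ _ |>.trans (le_max_left _ _)) hn
  have hn3' : n3 ≤ n := le_trans (le_max_left _ _ |>.trans (le_max_right _ _)) hn
  have hn5 : 5 ≤ n := le_trans (le_max_right _ _ |>.trans (le_max_right _ _)) hn
  have hnpos : (0 : ℝ) < n := by
    have : 0 < n := by omega
    exact_mod_cast this
  have hnk : (0 : ℝ) < (n : ℝ) ^ (m + 3) := by positivity
  have hup : (P n (m + 3) : ℝ) / (n : ℝ) ^ (m + 3) ≤ 1 / 27 + ε / 2 := by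
    rw [div_le_iff₀ hnk]
    exact hn1 n hn1'
  have hlo : (1 - 4 / (n : ℝ)) ^ m * ((1 - 5 / (n : ℝ)) / 3) ^ 3 ≤
      (P n (m + 3) : ℝ) / (n : ℝ) ^ (m + 3) := by
    rw [le_div_iff₀ hnk]
    have h1 := hn2 n hn2'
    have h1' : (((n - 4 : ℕ) : ℝ)) ^ (m + 3 - 3) * (((2 * (n / 6) : ℕ) : ℝ)) ^ 3 ≤
        (P n (m + 3) : ℝ) := by exact_mod_cast h1
    refine le_trans ?_ h1'
    have e1 : ((n - 4 : ℕ) : ℝ) = (n : ℝ) - 4 := by
      rw [Nat.cast_sub (by omega)]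
      norm_num
    have e2 : ((n : ℝ) - 5) / 3 ≤ ((2 * (n / 6) : ℕ) : ℝ) := by
      have h3 : n ≤ 3 * (2 * (n / 6)) + 5 := by omega
      have h4 : (n : ℝ) ≤ 3 * ((2 * (n / 6) : ℕ) : ℝ) + 5 := by exact_mod_cast h3
      linarith
    have hn4 : (0 : ℝ) ≤ (n : ℝ) - 5 := by
      have : (5 : ℝ) ≤ n := by exact_mod_cast hn5
      linarith
    rw [e1, Nat.add_sub_cancel]
    calc (1 - 4 / (n : ℝ)) ^ m * ((1 - 5 / (n : ℝ)) / 3) ^ 3 * (n : ℝ) ^ (m + 3)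
        = ((n : ℝ) - 4) ^ m * (((n : ℝ) - 5) / 3) ^ 3 := by
          have h4 : (1 - 4 / (n : ℝ)) * n = n - 4 := by field_simp
          have h5 : (1 - 5 / (n : ℝ)) / 3 * n = (n - 5) / 3 := by field_simp
          rw [← h4, ← h5, mul_pow, mul_pow]
          ring
      _ ≤ ((n : ℝ) - 4) ^ m * ((2 * (n / 6) : ℕ) : ℝ) ^ 3 := by
          have h6 : (0 : ℝ) ≤ ((n : ℝ) - 4) ^ m := pow_nonneg (by linarith) m
          exact mul_le_mul_of_nonneg_left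
            (pow_le_pow_left₀ (by positivity) e2 3) h6
  have h7 := hn3 n hn3'
  rw [Real.dist_eq, abs_lt] at h7 ⊢
  constructor <;> linarith [h7.1]

theorem stmt_B : Stmt_B :=
  stmt_B_of (stmt_UP (stmt_FAMS stmt_FAM) stmt_GRE stmt_PAIR) stmt_LOW

end Pool.Agent.TD
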