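import Pool.Agent.Work.MP_1ce445_co.Interface

/-!
Block CLow of MP_1ce445_co: `(2m)^(2m-1) ≤ P (2m+1) (2m-1)` (explicit factorization).
-/

namespace Pool.Agent.TD.CLowAux

open Finset Pool.Agent.TD

/-- vertices: the integers in `[-m, m]` -/
abbrev VV (m : ℕ) : Type := ↥(Finset.Icc (-(m : ℤ)) (m : ℤ))

/-- colours: the integers in `[-(m-1), m-1]` -/
abbrev CC (m : ℕ) : Type := ↥(Finset.Icc (-((m : ℤ) - 1)) ((m : ℤ) - 1))

/-- adjacency in colour `i` -/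
def Ad (m i x y : ℤ) : Prop :=
  x ≠ y ∧ (x + y = 2 * i ∨ (x + y = 2 * i + (2 * m + 1) ∧ 3 ≤ x + y) ∨
    (x + y = 2 * i - (2 * m + 1) ∧ x + y ≤ -3) ∨
    (x + y = 1 ∧ (x = i ∨ y = i) ∧ i ≤ 0) ∨
    (x + y = -1 ∧ (x = i ∨ y = i) ∧ 0 ≤ i))

theorem Ad_symm {m i x y : ℤ} (h : Ad m i x y) : Ad m i y x := by
  unfold Ad at *
  omega

theorem Ad_disj {m i j x y : ℤ} (hij : i ≠ j) (h : Ad m i x y) (h' : Ad m j x y) : False := by
  unfold Ad at *
  omega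

theorem Ad_cover {m x y : ℤ} (hx : -m ≤ x) (hx' : x ≤ m) (hy : -m ≤ y) (hy' : y ≤ m)
    (hxy : x ≠ y) : ∃ i, (-(m - 1) ≤ i ∧ i ≤ m - 1) ∧ Ad m i x y := by
  unfold Ad
  rcases Int.even_or_odd' (x + y) with ⟨s, hs | hs⟩
  · exact ⟨s, by omega, by omega⟩
  · rcases lt_trichotomy s 0 with h | h | h
    · by_cases h1 : s = -1
      · by_cases h2 : x < y
        · exact ⟨y, by omega, by omega⟩
        · exact ⟨x, by omega, by omega⟩
      · exact ⟨s + m + 1, by omega, by omega⟩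
    · by_cases h2 : x < y
      · exact ⟨x, by omega, by omega⟩
      · exact ⟨y, by omega, by omega⟩
    · exact ⟨s - m, by omega, by omega⟩

/-- the neighbour `p(x)` -/
theorem Ad_p {m i x : ℤ} (hm : 2 ≤ m) (hi : -(m - 1) ≤ i) (hi' : i ≤ m - 1) (hx : -m ≤ x)
    (hx' : x ≤ m) (hne : x ≠ i) :
    ∃ y, (-m ≤ y ∧ y ≤ m) ∧ y ≠ i ∧ y ≠ x ∧ Ad m i x y ∧
      (x + y = 2 * i ∨ x + y = 2 * i + (2 * m + 1) ∨ x + y = 2 * i - (2 * m + 1)) := by
  unfold Ad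
  by_cases h1 : 2 * i - x < -m
  · exact ⟨2 * i - x + (2 * m + 1), by omega, by omega, by omega, by omega, by omega⟩
  · by_cases h2 : m < 2 * i - x
    · exact ⟨2 * i - x - (2 * m + 1), by omega, by omega, by omega, by omega, by omega⟩
    · exact ⟨2 * i - x, by omega, by omega, by omega, by omega, by omega⟩

theorem Ad_pos {m i x : ℤ} (hm : 2 ≤ m) (hi : -(m - 1) ≤ i) (hi' : i ≤ m - 1) (hx : -m ≤ x)
    (hx' : x ≤ m) : ∃ y, (-m ≤ y ∧ y ≤ m) ∧ Ad m i x y := by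
  by_cases hne : x = i
  · unfold Ad
    by_cases h0 : i ≤ 0
    · exact ⟨1 - i, by omega, by omega⟩
    · exact ⟨-1 - i, by omega, by omega⟩
  · obtain ⟨y, h1, -, -, h2, -⟩ := Ad_p hm hi hi' hx hx' hne
    exact ⟨y, h1, h2⟩

/-- The factorization. -/
def GG (m : ℕ) (i : CC m) : SimpleGraph (VV m) where
  Adj x y := Ad m i x y
  symm := ⟨fun _ _ h => Ad_symm h⟩
  loopless := ⟨fun _ h => h.1 rfl⟩

theorem GG_adj {m : ℕ} {i : CC m} {x y : VV m} : (GG m i).Adj x y ↔ Ad m i x y := Iff.rfl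

/-- two vertices outside of a total dominating set coincide (in terms of integers) -/
theorem key {m i : ℤ} (hm : 2 ≤ m) (hi : -(m - 1) ≤ i) (hi' : i ≤ m - 1) (S : ℤ → Prop)
    (hS : ∀ v, -m ≤ v → v ≤ m → ∃ w, S w ∧ (-m ≤ w ∧ w ≤ m) ∧ Ad m i v w) (a b : ℤ)
    (ha : -m ≤ a) (ha' : a ≤ m) (hb : -m ≤ b) (hb' : b ≤ m) (hSa : ¬ S a) (hSb : ¬ S b) :
    a = b := by
  -- a vertex outside `S` different from `i` is `p (y0)`
  have h1 : ∀ a, -m ≤ a → a ≤ m → ¬ S a → a ≠ i → ∃ y, (-m ≤ y ∧ y ≤ m) ∧ y ≠ i ∧ y ≠ a ∧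
      (a + y = 2 * i ∨ a + y = 2 * i + (2 * m + 1) ∨ a + y = 2 * i - (2 * m + 1)) ∧
      ((y + i = 1 ∧ i ≤ 0) ∨ (y + i = -1 ∧ 0 ≤ i)) := by
    intro a ha ha' hSa hai
    obtain ⟨y, hy, hyi, hya, -, hp⟩ := Ad_p hm hi hi' ha ha' hai
    obtain ⟨w, hw, hwm, hA⟩ := hS y hy.1 hy.2
    have hwa : w ≠ a := fun h => hSa (h ▸ hw)
    refine ⟨y, hy, hyi, hya, hp, ?_⟩
    unfold Ad at hA
    omega
  by_contra hab
  by_cases hi0 : i = 0
  · subst hi0
    -- the triangle `{0, 1, -1}`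
    have h2 : ∀ a, -m ≤ a → a ≤ m → ¬ S a → a = 0 ∨ a = 1 ∨ a = -1 := by
      intro a ha ha' hSa
      by_cases h : a = 0
      · exact Or.inl h
      · obtain ⟨y, hy⟩ := h1 a ha ha' hSa h
        omega
    have h3 := h2 a ha ha' hSa
    have h4 := h2 b hb hb' hSb
    -- the third vertex of the triangle sees neither `a` nor `b`
    obtain ⟨w, hw, hwm, hA⟩ := hS (-a - b) (by omega) (by omega)
    have hwa : w ≠ a := fun h => hSa (h ▸ hw)
    have hwb : w ≠ b := fun h => hSb (h ▸ hw)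
    unfold Ad at hA
    omega
  · have h2 : ∃ y0, (-m ≤ y0 ∧ y0 ≤ m) ∧ ((y0 + i = 1 ∧ i ≤ 0) ∨ (y0 + i = -1 ∧ 0 ≤ i)) := by
      by_cases h0 : i ≤ 0
      · exact ⟨1 - i, by omega, by omega⟩
      · exact ⟨-1 - i, by omega, by omega⟩
    obtain ⟨y0, hy0, hy1⟩ := h2
    obtain ⟨w, hw, hwm, hA⟩ := hS y0 hy0.1 hy0.2
    have hwa : w ≠ a := fun h => hSa (h ▸ hw)
    have hwb : w ≠ b := fun h => hSb (h ▸ hw)
    have h3 : a = i ∨ (a + y0 = 2 * i ∨ a + y0 = 2 * i + (2 * m + 1) ∨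
        a + y0 = 2 * i - (2 * m + 1)) := by
      by_cases h : a = i
      · exact Or.inl h
      · obtain ⟨y, hy⟩ := h1 a ha ha' hSa h
        right
        have : y = y0 := by omega
        omega
    have h4 : b = i ∨ (b + y0 = 2 * i ∨ b + y0 = 2 * i + (2 * m + 1) ∨
        b + y0 = 2 * i - (2 * m + 1)) := by
      by_cases h : b = i
      · exact Or.inl h
      · obtain ⟨y, hy⟩ := h1 b hb hb' hSb h
        right
        have : y = y0 := by omega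
        omega
    unfold Ad at hA
    omega

theorem gamma_ge {m : ℕ} (hm : 2 ≤ m) (i : CC m) (S : Finset (VV m))
    (hS : IsTDSet (GG m i) S) : 2 * m ≤ S.card := by
  have hi := Finset.mem_Icc.1 i.2
  have h1 : (Sᶜ).card ≤ 1 := by
    rw [Finset.card_le_one]
    intro a ha b hb
    rw [Finset.mem_compl] at ha hb
    have ha1 := Finset.mem_Icc.1 a.2
    have hb1 := Finset.mem_Icc.1 b.2
    apply Subtype.ext
    refine key (m := (m : ℤ)) (i := (i : ℤ)) (by exact_mod_cast hm) hi.1 hi.2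
      (fun z => ∃ h : z ∈ Finset.Icc (-(m : ℤ)) (m : ℤ), (⟨z, h⟩ : VV m) ∈ S) ?_ a b
      ha1.1 ha1.2 hb1.1 hb1.2 ?_ ?_
    · intro v hv hv'
      obtain ⟨w, hw, hvw⟩ := hS ⟨v, Finset.mem_Icc.2 ⟨hv, hv'⟩⟩
      exact ⟨w, ⟨w.2, hw⟩, Finset.mem_Icc.1 w.2, hvw⟩
    · rintro ⟨h, h'⟩
      exact ha h'
    · rintro ⟨h, h'⟩
      exact hb h'
  have h2 : S.card + (Sᶜ).card = Fintype.card (VV m) := Finset.card_add_card_compl S
  have h3 : Fintype.card (VV m) = 2 * m + 1 := by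
    rw [Fintype.card_coe, Int.card_Icc]
    omega
  omega

end Pool.Agent.TD.CLowAux

namespace Pool.Agent.TD

open Finset CLowAux

theorem stmt_CLow : Stmt_CLow := by
  intro m hm
  have hmz : (2 : ℤ) ≤ (m : ℤ) := by exact_mod_cast hm
  have hV : Fintype.card (VV m) = 2 * m + 1 := by
    rw [Fintype.card_coe, Int.card_Icc]
    omega
  have hC : Fintype.card (CC m) = 2 * m - 1 := by
    rw [Fintype.card_coe, Int.card_Icc]
    omega
  have hpos : ∀ (j : CC m) (v : VV m), ∃ w, (GG m j).Adj v w := by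
    intro j v
    have hj := Finset.mem_Icc.1 j.2
    have hv := Finset.mem_Icc.1 v.2
    obtain ⟨y, hy, hA⟩ := Ad_pos hmz hj.1 hj.2 hv.1 hv.2
    exact ⟨⟨y, Finset.mem_Icc.2 hy⟩, hA⟩
  have h1 := prod_le_P' hV hC (GG m)
    (fun i j hij v w h h' => Ad_disj (fun h => hij (Subtype.ext h)) h h')
    (fun v w hvw => by
      have hv := Finset.mem_Icc.1 v.2
      have hw := Finset.mem_Icc.1 w.2
      obtain ⟨i, hi, hA⟩ := Ad_cover hv.1 hv.2 hw.1 hw.2 (fun h => hvw (Subtype.ext h))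
      exact ⟨⟨i, Finset.mem_Icc.2 hi⟩, hA⟩) hpos
  refine le_trans ?_ h1
  have h2 : (2 * m) ^ (2 * m - 1) = ∏ _j : CC m, 2 * m := by
    rw [Finset.prod_const, Finset.card_univ, hC]
  rw [h2]
  exact Finset.prod_le_prod' (fun j _ => le_gammaT (hpos j) (fun S hS => gamma_ge hm j S hS))

end Pool.Agent.TD
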