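import Pool.Agent.Work.MP_1ce445_co.Interface

namespace Pool.Agent.TD

open Finset

/-- number of `D`-sets containing a given set -/
theorem card_supersets_le {α : Type*} [DecidableEq α] (U A : Finset α) (D : ℕ) (hA : A ⊆ U) :
    ((U.powersetCard D).filter (fun R => A ⊆ R)).card ≤
      if A.card ≤ D then (U.card - A.card).choose (D - A.card) else 0 := by
  split_ifs with h
  · have h1 : (U.card - A.card).choose (D - A.card) =
        ((U \ A).powersetCard (D - A.card)).card := by
      rw [Finset.card_powersetCard, Finset.card_sdiff_of_subset hA]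
    rw [h1]
    refine Finset.card_le_card_of_injOn (fun R => R \ A) ?_ ?_
    · intro R hR
      rw [Finset.mem_coe, Finset.mem_filter, Finset.mem_powersetCard] at hR
      rw [Finset.mem_coe, Finset.mem_powersetCard]
      refine ⟨Finset.sdiff_subset_sdiff hR.1.1 (le_refl _), ?_⟩
      rw [Finset.card_sdiff_of_subset hR.2, hR.1.2]
    · intro R hR R' hR' he
      rw [Finset.mem_coe, Finset.mem_filter, Finset.mem_powersetCard] at hR hR'
      simp only at he
      rw [← Finset.sdiff_union_of_subset hR.2, ← Finset.sdiff_union_of_subset hR'.2, he]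
  · rw [Finset.card_eq_zero.2]
    rw [Finset.filter_eq_empty_iff]
    intro R hR hAR
    rw [Finset.mem_powersetCard] at hR
    exact h (hR.2 ▸ Finset.card_le_card hAR)

/-- If fewer than all `D`-sets contain an open neighbourhood, `γ_t ≤ n - D`. -/
theorem stmt_CNT : Stmt_CNT := by
  classical
  intro n D G _ hG hlt
  by_contra hcon
  have hbad : ∀ R ∈ (univ : Finset (Fin n)).powersetCard D, ∃ v, G.neighborFinset v ⊆ R := by
    intro R hR
    by_contra hc
    push Not at hc
    refine hcon ?_
    have h1 := gammaT_add_card_le (G := G) R (fun v => by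
      obtain ⟨w, hw, hwR⟩ := Finset.not_subset.1 (hc v)
      exact ⟨w, by simpa using hw, hwR⟩)
    rw [(Finset.mem_powersetCard.1 hR).2] at h1
    simpa using h1
  have h2 : (univ : Finset (Fin n)).powersetCard D ⊆ univ.biUnion (fun v =>
      ((univ : Finset (Fin n)).powersetCard D).filter (fun R => G.neighborFinset v ⊆ R)) := by
    intro R hR
    obtain ⟨v, hv⟩ := hbad R hR
    exact Finset.mem_biUnion.2 ⟨v, Finset.mem_univ _, Finset.mem_filter.2 ⟨hR, hv⟩⟩
  have h3 := (Finset.card_le_card h2).trans Finset.card_biUnion_le
  rw [Finset.card_powersetCard, Finset.card_univ, Fintype.card_fin] at h3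
  have h4 : ∑ v : Fin n, (((univ : Finset (Fin n)).powersetCard D).filter
      (fun R => G.neighborFinset v ⊆ R)).card ≤
      ∑ v, if G.degree v ≤ D then (n - G.degree v).choose (D - G.degree v) else 0 := by
    refine Finset.sum_le_sum fun v _ => ?_
    have := card_supersets_le (univ : Finset (Fin n)) (G.neighborFinset v) D (Finset.subset_univ _)
    simpa [SimpleGraph.card_neighborFinset_eq_degree] using this
  omega

/-! binomial inequalities -/

theorem choose_mono_half (n a : ℕ) : ∀ b, a ≤ b → 2 * b ≤ n → n.choose a ≤ n.choose b := by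
  intro b hab
  induction b, hab using Nat.le_induction with
  | base => intro _; exact le_rfl
  | succ b hb ih =>
    intro h
    exact (ih (by omega)).trans (Nat.choose_le_succ_of_lt_half_left (by omega))

theorem choose_mid (n a b : ℕ) (hab : a ≤ b) (hb : a + b ≤ n) : n.choose a ≤ n.choose b := by
  by_cases h : 2 * b ≤ n
  · exact choose_mono_half n a b hab h
  · have h1 : n.choose b = n.choose (n - b) := (Nat.choose_symm (by omega)).symm
    rw [h1]
    exact choose_mono_half n a (n - b) (by omega) (by omega)

theorem choose_three (m : ℕ) : 6 * (m + 3).choose 3 = (m + 3) * (m + 2) * (m + 1) := by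
  have h := Nat.descFactorial_eq_factorial_mul_choose (m + 3) 3
  simp only [Nat.descFactorial_succ, Nat.descFactorial_zero] at h
  have h1 : Nat.factorial 3 = 6 := by decide
  rw [h1] at h
  rw [← h]
  have e1 : m + 3 - 2 = m + 1 := by omega
  have e2 : m + 3 - 1 = m + 2 := by omega
  rw [e1, e2]
  simp
  ring

theorem choose_two (m : ℕ) : 2 * (m + 2).choose 2 = (m + 2) * (m + 1) := by
  have h := Nat.descFactorial_eq_factorial_mul_choose (m + 2) 2
  simp only [Nat.descFactorial_succ, Nat.descFactorial_zero] at h
  have h1 : Nat.factorial 2 = 2 := by decide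
  rw [h1] at h
  rw [← h]
  have e2 : m + 2 - 1 = m + 1 := by omega
  rw [e2]
  simp
  ring

theorem stmt_R1 : Stmt_R1 := by
  intro n D G _ hn hD hDn hreg
  refine stmt_CNT n D G (fun v => ?_) ?_
  · rw [← SimpleGraph.degree_pos_iff_exists_adj, hreg v]
    omega
  · simp only [hreg, le_refl, if_true, Nat.sub_self, Nat.choose_zero_right]
    simp only [Finset.sum_const, Finset.card_univ, Fintype.card_fin, smul_eq_mul, mul_one]
    have h1 := choose_mid n 2 D hD (by omega)
    obtain ⟨m, rfl⟩ : ∃ m, n = m + 2 := ⟨n - 2, by omega⟩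
    have h2 := choose_two m
    nlinarith

theorem stmt_R2 : Stmt_R2 := by
  intro n D G _ hn hD hDn hreg
  refine stmt_CNT n (D + 1) G (fun v => ?_) ?_
  · rw [← SimpleGraph.degree_pos_iff_exists_adj, hreg v]
    omega
  · have h0 : ∀ v : Fin n, (if G.degree v ≤ D + 1 then
        (n - G.degree v).choose (D + 1 - G.degree v) else 0) = n - D := by
      intro v
      rw [hreg v, if_pos (Nat.le_succ D)]
      simp
    simp only [h0, Finset.sum_const, Finset.card_univ, Fintype.card_fin, smul_eq_mul]
    by_cases hc : D + 4 ≤ n
    · have h1 := choose_mid n 3 (D + 1) (by omega) (by omega)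
      refine lt_of_lt_of_le ?_ h1
      obtain ⟨m, rfl⟩ : ∃ m, n = m + 3 := ⟨n - 3, by omega⟩
      have h2 := choose_three m
      have h3 : (m + 3) * (m + 3 - D) ≤ (m + 3) * (m + 1) := Nat.mul_le_mul_left _ (by omega)
      nlinarith
    · have hD' : D + 3 = n := by omega
      subst hD'
      have e : (D + 3).choose (D + 1) = (D + 3).choose 2 := Nat.choose_symm_of_eq_add (by omega)
      rw [e]
      have h2 := choose_two (D + 1)
      have h3 : D + 3 - D = 3 := by omega
      rw [h3]
      nlinarith

theorem stmt_R3 : Stmt_R3 := by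
  classical
  intro n D G _ hn hD hDn hdeg ⟨v0, hv0⟩
  refine stmt_CNT n D G (fun v => ?_) ?_
  · rw [← SimpleGraph.degree_pos_iff_exists_adj]
    have := hdeg v
    omega
  · have h0 : ∀ v : Fin n, (if G.degree v ≤ D then
        (n - G.degree v).choose (D - G.degree v) else 0) ≤ 1 + (if v = v0 then 0 else n - D) := by
      intro v
      rcases hdeg v with h | h
      · rw [h]
        simp
      · have hv : v ≠ v0 := by
          rintro rfl
          omega
        rw [if_neg hv, if_pos (by omega)]
        have e1 : D - G.degree v = 1 := by omega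
        rw [e1, Nat.choose_one_right]
        omega
    have h1 : ∑ v : Fin n, (1 + (if v = v0 then 0 else n - D)) = n + (n - 1) * (n - D) := by
      rw [Finset.sum_add_distrib]
      have h2 : ∑ v : Fin n, (if v = v0 then 0 else n - D) = (n - 1) * (n - D) := by
        rw [Finset.sum_ite]
        simp only [Finset.sum_const_zero, Finset.sum_const, smul_eq_mul, zero_add]
        congr 1
        rw [Finset.filter_ne', Finset.card_erase_of_mem (Finset.mem_univ _)]
        simp
      rw [h2]
      simp
    refine lt_of_le_of_lt (Finset.sum_le_sum fun v _ => h0 v) ?_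
    rw [h1]
    by_cases hc : D + 3 ≤ n
    · have h2 := choose_mid n 3 D hD (by omega)
      refine lt_of_lt_of_le ?_ h2
      obtain ⟨m, rfl⟩ : ∃ m, n = m + 3 := ⟨n - 3, by omega⟩
      have h3 := choose_three m
      have h4 : (m + 3 - 1) * (m + 3 - D) ≤ (m + 2) * m := Nat.mul_le_mul (by omega) (by omega)
      have hm : 4 ≤ m := by omega
      obtain ⟨r, rfl⟩ : ∃ r, m = r + 4 := ⟨m - 4, by omega⟩
      nlinarith [mul_nonneg (Nat.zero_le r) (Nat.zero_le (r * r))]
    · have hD' : D + 2 = n := by omega
      subst hD'
      have e : (D + 2).choose D = (D + 2).choose 2 := Nat.choose_symm_of_eq_add (by omega)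
      rw [e]
      have h2 := choose_two D
      have h3 : D + 2 - D = 2 := by omega
      have h4 : D + 2 - 1 = D + 1 := by omega
      rw [h3, h4]
      nlinarith

end Pool.Agent.TD
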