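import Pool.Agent.Work.MP_1ce445_co.CDH

namespace Pool.Agent.TD

open Finset

theorem stmt_COdd : Stmt_COdd := by
  classical
  intro m k G hG j
  -- some vertex has degree at least two
  have hex : ∃ v, 2 ≤ (G j).degree v := by
    by_contra hcon
    push Not at hcon
    have h1 : ∀ v, (G j).degree v = 1 := by
      intro v
      have h2 := hcon v
      have h3 : 0 < (G j).degree v := by
        rw [SimpleGraph.degree_pos_iff_exists_adj]
        exact hG.pos j v
      omega
    have h4 := (G j).sum_degrees_eq_twice_card_edges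
    simp only [h1] at h4
    simp at h4
    omega
  obtain ⟨v, hv⟩ := hex
  have := stmt_CDH (2 * m + 1) (G j) (hG.pos j) v
  omega

theorem stmt_C_of (h : Stmt_CLow) : Stmt_C := by
  intro m hm
  refine le_antisymm (P_le fun G hG => ?_) (h m hm)
  calc ∏ j, gammaT (G j) ≤ ∏ _j : Fin (2 * m - 1), 2 * m :=
        Finset.prod_le_prod' (fun j _ => stmt_COdd m _ G hG j)
    _ = (2 * m) ^ (2 * m - 1) := by simp

end Pool.Agent.TD
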