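import Mathlib

/-!
# MP_1ce445_co: product of the total domination numbers over factorizations of K_n

Definitions and basic lemmas.
-/

namespace Pool.Agent.TD

open Finset

/-- `S` is a total dominating set of `G`: every vertex (also those of `S`) has a neighbour
in `S`. -/
def IsTDSet {V : Type*} (G : SimpleGraph V) (S : Finset V) : Prop :=
  ∀ v, ∃ w ∈ S, G.Adj v w

/-- The total domination number: least size of a total dominating set. -/
noncomputable def gammaT {V : Type*} (G : SimpleGraph V) : ℕ :=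
  sInf {m | ∃ S : Finset V, IsTDSet G S ∧ S.card = m}

/-- `G 0, ..., G (k-1)` is a `k`-factorization of the complete graph on `V` in which every
factor has minimum degree at least one. -/
structure IsFact {V : Type*} {k : ℕ} (G : Fin k → SimpleGraph V) : Prop where
  /-- the edge sets are pairwise disjoint -/
  disj : ∀ i j, i ≠ j → ∀ v w, (G i).Adj v w → ¬ (G j).Adj v w
  /-- the union is the complete graph -/
  cover : ∀ v w, v ≠ w → ∃ j, (G j).Adj v w
  /-- no factor has an isolated vertex -/
  pos : ∀ j v, ∃ w, (G j).Adj v w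

/-- `P(n,k)`: the maximum of the products of the total domination numbers over all
`k`-factorizations of `K_n` with minimum degrees at least one. -/
noncomputable def P (n k : ℕ) : ℕ :=
  sSup {m | ∃ G : Fin k → SimpleGraph (Fin n), IsFact G ∧ m = ∏ j, gammaT (G j)}

section basic

variable {V : Type*} {G : SimpleGraph V}

theorem gammaT_le {S : Finset V} (h : IsTDSet G S) : gammaT G ≤ S.card :=
  Nat.sInf_le ⟨S, h, rfl⟩

theorem exists_gammaT [Fintype V] (h : ∀ v, ∃ w, G.Adj v w) :
    ∃ S : Finset V, IsTDSet G S ∧ S.card = gammaT G := by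
  have hne : {m | ∃ S : Finset V, IsTDSet G S ∧ S.card = m}.Nonempty :=
    ⟨_, Finset.univ, fun v => by obtain ⟨w, hw⟩ := h v; exact ⟨w, Finset.mem_univ _, hw⟩, rfl⟩
  exact Nat.sInf_mem hne

theorem le_gammaT [Fintype V] (h : ∀ v, ∃ w, G.Adj v w) {m : ℕ}
    (hm : ∀ S : Finset V, IsTDSet G S → m ≤ S.card) : m ≤ gammaT G := by
  obtain ⟨S, hS, hc⟩ := exists_gammaT h
  rw [← hc]
  exact hm S hS

/-- If `R` contains no open neighbourhood then the complement of `R` is total dominating. -/
theorem gammaT_add_card_le [Fintype V] [DecidableEq V] (R : Finset V)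
    (h : ∀ v, ∃ w, G.Adj v w ∧ w ∉ R) : gammaT G + R.card ≤ Fintype.card V := by
  have h1 : IsTDSet G (Finset.univ \ R) := fun v => by
    obtain ⟨w, hw, hR⟩ := h v
    exact ⟨w, by simp [hR], hw⟩
  have h2 := gammaT_le h1
  rw [Finset.card_sdiff_of_subset (Finset.subset_univ R), Finset.card_univ] at h2
  have h3 : R.card ≤ Fintype.card V := Finset.card_le_univ R
  omega

theorem gammaT_le_card [Fintype V] (h : ∀ v, ∃ w, G.Adj v w) : gammaT G ≤ Fintype.card V := by
  classical
  have := gammaT_add_card_le (G := G) ∅ (fun v => by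
    obtain ⟨w, hw⟩ := h v
    exact ⟨w, hw, by simp⟩)
  simpa using this

/-- transport of the total domination number along an equivalence -/
theorem gammaT_map {W : Type*} (e : V ≃ W) (G : SimpleGraph V) :
    gammaT (G.map e.toEmbedding) = gammaT G := by
  unfold gammaT
  congr 1
  ext m
  constructor
  · rintro ⟨S, hS, hc⟩
    refine ⟨S.map e.symm.toEmbedding, ?_, by simpa using hc⟩
    intro v
    obtain ⟨w, hw, hvw⟩ := hS (e v)
    rw [SimpleGraph.map_adj] at hvw
    obtain ⟨a, b, hab, ha, hb⟩ := hvw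
    have ha' : a = v := e.injective ha
    have hb' : b = e.symm w := by rw [← hb]; simp
    refine ⟨e.symm w, by simpa using hw, ?_⟩
    rw [← hb', ← ha']
    exact hab
  · rintro ⟨S, hS, hc⟩
    refine ⟨S.map e.toEmbedding, ?_, by simpa using hc⟩
    intro v
    obtain ⟨w, hw, hvw⟩ := hS (e.symm v)
    refine ⟨e w, by simpa using hw, ?_⟩
    rw [SimpleGraph.map_adj]
    exact ⟨e.symm v, w, hvw, by simp, rfl⟩

end basic

section max

variable {n k : ℕ}

theorem bddAbove (n k : ℕ) :
    BddAbove {m | ∃ G : Fin k → SimpleGraph (Fin n), IsFact G ∧ m = ∏ j, gammaT (G j)} := by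
  refine ⟨n ^ k, ?_⟩
  rintro m ⟨G, hG, rfl⟩
  calc ∏ j, gammaT (G j) ≤ ∏ _j : Fin k, n :=
        Finset.prod_le_prod' (fun j _ => by simpa using gammaT_le_card (hG.pos j))
    _ = n ^ k := by simp

theorem prod_le_P {G : Fin k → SimpleGraph (Fin n)} (hG : IsFact G) :
    ∏ j, gammaT (G j) ≤ P n k :=
  le_csSup (bddAbove n k) ⟨G, hG, rfl⟩

/-- lower bound through a factorization of the complete graph on any `n`-element set and any
`k`-element set of colours -/
theorem prod_le_P' {V : Type*} [Fintype V] {C : Type*} [Fintype C] (hV : Fintype.card V = n)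
    (hC : Fintype.card C = k) (G : C → SimpleGraph V)
    (hdisj : ∀ i j, i ≠ j → ∀ v w, (G i).Adj v w → ¬ (G j).Adj v w)
    (hcover : ∀ v w, v ≠ w → ∃ j, (G j).Adj v w)
    (hpos : ∀ j v, ∃ w, (G j).Adj v w) :
    ∏ j, gammaT (G j) ≤ P n k := by
  classical
  subst hV hC
  let e := Fintype.equivFin V
  let f := Fintype.equivFin C
  have hF : IsFact (fun j : Fin (Fintype.card C) => (G (f.symm j)).map e.toEmbedding) := by
    refine ⟨?_, ?_, ?_⟩
    · intro i j hij v w h1 h2
      rw [SimpleGraph.map_adj] at h1 h2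
      obtain ⟨a, b, hab, ha, hb⟩ := h1
      obtain ⟨a', b', hab', ha', hb'⟩ := h2
      have h3 : a' = a := e.injective (by rw [show e a' = v from ha', show e a = v from ha])
      have h4 : b' = b := e.injective (by rw [show e b' = w from hb', show e b = w from hb])
      rw [h3, h4] at hab'
      exact hdisj _ _ (fun h => hij (f.symm.injective h)) _ _ hab hab'
    · intro v w hvw
      obtain ⟨j, hj⟩ := hcover (e.symm v) (e.symm w) (fun h => hvw (e.symm.injective h))
      refine ⟨f j, ?_⟩
      rw [SimpleGraph.map_adj]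
      exact ⟨_, _, by simpa using hj, by simp, by simp⟩
    · intro j v
      obtain ⟨w, hw⟩ := hpos (f.symm j) (e.symm v)
      refine ⟨e w, ?_⟩
      rw [SimpleGraph.map_adj]
      exact ⟨_, _, hw, by simp, rfl⟩
  have h1 := prod_le_P hF
  have h2 : ∏ j : Fin (Fintype.card C), gammaT ((G (f.symm j)).map e.toEmbedding)
      = ∏ j, gammaT (G j) := by
    simp_rw [gammaT_map]
    exact Equiv.prod_comp f.symm (fun j => gammaT (G j))
  rw [← h2]
  exact h1

theorem P_le {B : ℕ} (h : ∀ G : Fin k → SimpleGraph (Fin n), IsFact G → ∏ j, gammaT (G j) ≤ B) :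
    P n k ≤ B := by
  by_cases hne : {m | ∃ G : Fin k → SimpleGraph (Fin n), IsFact G ∧
      m = ∏ j, gammaT (G j)}.Nonempty
  · refine csSup_le hne ?_
    rintro m ⟨G, hG, rfl⟩
    exact h G hG
  · rw [Set.not_nonempty_iff_eq_empty] at hne
    unfold P
    rw [hne]
    simp

/-- If there is a factorization then the maximum is attained. -/
theorem exists_P (h : ∃ G : Fin k → SimpleGraph (Fin n), IsFact G) :
    ∃ G : Fin k → SimpleGraph (Fin n), IsFact G ∧ P n k = ∏ j, gammaT (G j) := by
  obtain ⟨G, hG⟩ := h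
  have hne : {m | ∃ G : Fin k → SimpleGraph (Fin n), IsFact G ∧
      m = ∏ j, gammaT (G j)}.Nonempty := ⟨_, G, hG, rfl⟩
  exact Nat.sSup_mem hne (bddAbove n k)

end max

end Pool.Agent.TD
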