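import Pool.Agent.Work.MP_1ce445_co.Defs

/-!
Block statements.  File `X.lean` proves `theorem stmt_X : Stmt_X` (or from other `Stmt_Y` as
hypotheses).
-/

namespace Pool.Agent.TD

open Finset

/-! ## Part A: the bound is never attained -/

/-- CDH (Cockayne-Dawes-Hedetniemi): `γ_t ≤ n + 1 - deg v`. -/
def Stmt_CDH : Prop :=
  ∀ (n : ℕ) (G : SimpleGraph (Fin n)) [DecidableRel G.Adj], (∀ v, ∃ w, G.Adj v w) →
    ∀ v, gammaT G + G.degree v ≤ n + 1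

/-- CNT: if the number of `D`-sets containing an open neighbourhood is less than the number of
all `D`-sets then `γ_t ≤ n - D`. -/
def Stmt_CNT : Prop :=
  ∀ (n D : ℕ) (G : SimpleGraph (Fin n)) [DecidableRel G.Adj], (∀ v, ∃ w, G.Adj v w) →
    (∑ v, if G.degree v ≤ D then (n - G.degree v).choose (D - G.degree v) else 0) < n.choose D →
    gammaT G + D ≤ n

/-- R1: `D`-regular, `2 ≤ D ≤ n - 2`. -/
def Stmt_R1 : Prop :=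
  ∀ (n D : ℕ) (G : SimpleGraph (Fin n)) [DecidableRel G.Adj], 4 ≤ n → 2 ≤ D → D + 2 ≤ n →
    (∀ v, G.degree v = D) → gammaT G + D ≤ n

/-- R2: `D`-regular, `2 ≤ D ≤ n - 3`, `n ≥ 8`. -/
def Stmt_R2 : Prop :=
  ∀ (n D : ℕ) (G : SimpleGraph (Fin n)) [DecidableRel G.Adj], 8 ≤ n → 2 ≤ D → D + 3 ≤ n →
    (∀ v, G.degree v = D) → gammaT G + (D + 1) ≤ n

/-- R3: all degrees `D - 1` or `D`, not all `D - 1`. -/
def Stmt_R3 : Prop :=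
  ∀ (n D : ℕ) (G : SimpleGraph (Fin n)) [DecidableRel G.Adj], 7 ≤ n → 3 ≤ D → D + 2 ≤ n →
    (∀ v, G.degree v = D ∨ G.degree v + 1 = D) → (∃ v, G.degree v = D) → gammaT G + D ≤ n

/-- R4: maximum degree two and fewer than `n - 3` leaves. -/
def Stmt_R4 : Prop :=
  ∀ (n : ℕ) (G : SimpleGraph (Fin n)) [DecidableRel G.Adj], 7 ≤ n →
    (∀ v, G.degree v = 1 ∨ G.degree v = 2) →
    (univ.filter (fun v => G.degree v = 1)).card + 3 < n → gammaT G + 2 ≤ n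

/-- R5: maximum degree `D ≥ 3`, `3 D ≤ n + 1`, total deficiency at most `2 D - 1`. -/
def Stmt_R5 : Prop :=
  ∀ (n D : ℕ) (G : SimpleGraph (Fin n)) [DecidableRel G.Adj], 3 ≤ D → 3 * D ≤ n + 1 →
    (∀ v, ∃ w, G.Adj v w) → (∀ v, G.degree v ≤ D) → (∑ v, (D - G.degree v)) + 1 ≤ 2 * D →
    gammaT G + D ≤ n

/-- AM: strict inequality of the means, integer form. -/
def Stmt_AM : Prop :=
  ∀ (k : ℕ) (x : Fin k → ℕ) (N : ℕ), 1 ≤ k → 1 ≤ N → ∑ j, x j ≤ N →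
    (∑ j, x j < N ∨ ∃ i j, x i ≠ x j) → k ^ k * ∏ j, x j < N ^ k

/-- A: the known bound is never attained. -/
def Stmt_A : Prop :=
  ∀ (n k : ℕ), 7 ≤ n → 3 ≤ k → k + 2 ≤ n → ∀ G : Fin k → SimpleGraph (Fin n), IsFact G →
    k ^ k * ∏ j, gammaT (G j) < ((k - 1) * (n + 1)) ^ k

/-! ## Part B: `P(n,k) / n^k → 1/27` for every fixed `k ≥ 3` -/

/-- KEY: the one variable inequality. -/
def Stmt_KEY : Prop :=
  ∀ (x w : ℝ), 0 < x → 0 ≤ w → w ≤ 1 → 2 * x * w ≤ 1 →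
    1 - 2 * x * w ≤ (27 * x ^ 2) ^ (-(w ^ 2))

/-- TWO: the case of a two element member of the family. -/
def Stmt_TWO : Prop :=
  ∀ (ι : Type) (s : Finset ι) (a b : ℝ) (u v : ι → ℝ), 0 ≤ a → 0 ≤ b → a + b ≤ 1 →
    (∀ j ∈ s, 0 ≤ u j ∧ u j ≤ 1 ∧ 0 ≤ v j ∧ v j ≤ 1) → 1 ≤ ∑ j ∈ s, u j * v j →
    a * b * ∏ j ∈ s, (1 - (a * u j + b * v j)) ≤ 1 / 27

/-- FAM: a probability measure on an intersecting family. -/
def Stmt_FAM : Prop :=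
  ∀ (k : ℕ) (c : Finset (Fin k) → ℝ), (∀ A, 0 ≤ c A) → ∑ A, c A = 1 →
    (∀ A B, c A ≠ 0 → c B ≠ 0 → (A ∩ B).Nonempty) →
    ∏ j, (1 - ∑ A with j ∈ A, c A) ≤ 1 / 27

/-- FAMS: the stable form. -/
def Stmt_FAMS : Prop :=
  ∀ (k : ℕ) (ε : ℝ), 0 < ε → ∃ δ : ℝ, 0 < δ ∧
    ∀ (c : Finset (Fin k) → ℝ), (∀ A, 0 ≤ c A) → ∑ A, c A = 1 →
    (∀ A B, A ∩ B = ∅ → c A * c B ≤ δ) →
    ∏ j, (1 - ∑ A with j ∈ A, c A) ≤ 1 / 27 + ε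

/-- GRE: greedy choice.  `t γ_t ≤ t #{deg < t²} + 2 n`. -/
def Stmt_GRE : Prop :=
  ∀ (n t : ℕ) (G : SimpleGraph (Fin n)) [DecidableRel G.Adj], 1 ≤ t → (∀ v, ∃ w, G.Adj v w) →
    t * gammaT G ≤ t * (univ.filter (fun v => G.degree v < t ^ 2)).card + 2 * n

/-- PAIR: the number of ordered pairs `(u,v)` with disjoint sets of colours of large degree. -/
def Stmt_PAIR : Prop :=
  ∀ (n k T : ℕ) (G : Fin k → SimpleGraph (Fin n)) [∀ j, DecidableRel (G j).Adj], IsFact G →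
    (univ.filter (fun p : Fin n × Fin n =>
      ∀ j, (G j).degree p.1 < T ∨ (G j).degree p.2 < T)).card ≤ n + 2 * k * T * n

/-- UP: the upper bound. -/
def Stmt_UP : Prop :=
  ∀ (k : ℕ), 1 ≤ k → ∀ ε : ℝ, 0 < ε → ∃ n0 : ℕ, ∀ n ≥ n0,
    ∀ G : Fin k → SimpleGraph (Fin n), IsFact G →
    (∏ j, (gammaT (G j) : ℝ)) ≤ (1 / 27 + ε) * (n : ℝ) ^ k

/-- LOW: the construction. -/
def Stmt_LOW : Prop :=
  ∀ (k : ℕ), 3 ≤ k → ∃ n0 : ℕ, ∀ n ≥ n0, (n - 4) ^ (k - 3) * (2 * (n / 6)) ^ 3 ≤ P n k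

/-- B: the limit. -/
def Stmt_B : Prop :=
  ∀ (k : ℕ), 3 ≤ k →
    Filter.Tendsto (fun n : ℕ => (P n k : ℝ) / (n : ℝ) ^ k) Filter.atTop (nhds (1 / 27))

/-! ## Part C: `P(n, n-2) = (n-1)^(n-2)` for odd `n` -/

def Stmt_COdd : Prop :=
  ∀ (m k : ℕ) (G : Fin k → SimpleGraph (Fin (2 * m + 1))), IsFact G → ∀ j,
    gammaT (G j) ≤ 2 * m

def Stmt_CLow : Prop :=
  ∀ (m : ℕ), 2 ≤ m → (2 * m) ^ (2 * m - 1) ≤ P (2 * m + 1) (2 * m - 1)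

def Stmt_C : Prop :=
  ∀ (m : ℕ), 2 ≤ m → P (2 * m + 1) (2 * m - 1) = (2 * m) ^ (2 * m - 1)

end Pool.Agent.TD
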