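import Pool.Agent.Work.MP_1ce445_co.Interface

namespace Pool.Agent.TD

open Finset

theorem phi_ge (q : ℝ) (hq : 1 ≤ q) :
    Real.log 27 ≤ (q + 2) * Real.log (q + 2) - (q + 1) * Real.log q := by
  have hd : ∀ y : ℝ, 0 < y → HasDerivAt
      (fun y : ℝ => (y + 2) * Real.log (y + 2) - (y + 1) * Real.log y)
      ((1 * Real.log (y + 2) + (y + 2) * (1 / (y + 2))) -
        (1 * Real.log y + (y + 1) * y⁻¹)) y := by
    intro y hy
    have h1 : HasDerivAt (fun y : ℝ => y + 2) 1 y := (hasDerivAt_id y).add_const 2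
    have h2 : HasDerivAt (fun y : ℝ => y + 1) 1 y := (hasDerivAt_id y).add_const 1
    have h3 : HasDerivAt (fun y : ℝ => Real.log (y + 2)) (1 / (y + 2)) y :=
      h1.log (by positivity)
    have h4 : HasDerivAt (fun y : ℝ => Real.log y) y⁻¹ y := Real.hasDerivAt_log hy.ne'
    exact (h1.mul h3).sub (h2.mul h4)
  have hmono : MonotoneOn (fun y : ℝ => (y + 2) * Real.log (y + 2) - (y + 1) * Real.log y)
      (Set.Ici 1) := by
    refine monotoneOn_of_deriv_nonneg (convex_Ici 1) ?_ ?_ ?_
    · intro y hy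
      exact (hd y (lt_of_lt_of_le one_pos hy)).continuousAt.continuousWithinAt
    · intro y hy
      rw [interior_Ici] at hy
      exact (hd y (lt_trans one_pos hy)).differentiableAt.differentiableWithinAt
    · intro y hy
      rw [interior_Ici] at hy
      have hy1 : (1 : ℝ) < y := hy
      have hy0 : (0 : ℝ) < y := lt_trans one_pos hy
      rw [(hd y hy0).deriv]
      have h1 := Real.le_log_one_add_of_nonneg (x := 2 / y) (by positivity)
      have h2 : Real.log (1 + 2 / y) = Real.log (y + 2) - Real.log y := by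
        rw [← Real.log_div (by positivity) (by positivity)]
        congr 1
        field_simp
      have h3 : 1 / y ≤ 2 * (2 / y) / (2 / y + 2) := by
        rw [div_le_div_iff₀ hy0 (by positivity)]
        field_simp
        nlinarith
      have h4 : (y + 2) * (1 / (y + 2)) = 1 := by field_simp
      have h5 : (y + 1) * y⁻¹ = 1 + 1 / y := by field_simp
      rw [h4, h5]
      linarith
  have h := hmono (Set.self_mem_Ici) (show q ∈ Set.Ici (1 : ℝ) from hq) hq
  simp only at h
  have h1 : Real.log 27 = (1 + 2) * Real.log (1 + 2) - (1 + 1) * Real.log 1 := by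
    rw [Real.log_one, show (27 : ℝ) = 3 ^ 3 by norm_num, Real.log_pow]
    norm_num
  rw [h1]
  exact h

theorem lin (q a : ℝ) (hq : 1 ≤ q) (ha : 0 < a) (ha1 : a < 1) :
    q * Real.log (1 - a) + 2 * Real.log a ≤
      q * (Real.log q - Real.log (q + 2)) + 2 * (Real.log 2 - Real.log (q + 2)) := by
  have hq0 : (0 : ℝ) < q := lt_of_lt_of_le one_pos hq
  have h1 := Real.log_le_sub_one_of_pos (x := (1 - a) * (q + 2) / q) (by
    have : (0 : ℝ) < 1 - a := by linarith
    positivity)
  have h2 := Real.log_le_sub_one_of_pos (x := a * (q + 2) / 2) (by positivity)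
  have e1 : Real.log ((1 - a) * (q + 2) / q) = Real.log (1 - a) + Real.log (q + 2) - Real.log q := by
    rw [Real.log_div (by
      have : (0 : ℝ) < 1 - a := by linarith
      positivity) hq0.ne', Real.log_mul (by linarith) (by positivity)]
  have e2 : Real.log (a * (q + 2) / 2) = Real.log a + Real.log (q + 2) - Real.log 2 := by
    rw [Real.log_div (by positivity) (by norm_num), Real.log_mul ha.ne' (by positivity)]
  rw [e1] at h1
  rw [e2] at h2
  have h3 : q * (Real.log (1 - a) + Real.log (q + 2) - Real.log q) ≤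
      q * ((1 - a) * (q + 2) / q - 1) := mul_le_mul_of_nonneg_left h1 hq0.le
  have h4 : q * ((1 - a) * (q + 2) / q - 1) = (1 - a) * (q + 2) - q := by
    field_simp
  nlinarith

theorem stmt_KEY : Stmt_KEY := by
  intro x w hx hw0 hw1 hxw
  have h27 : (0 : ℝ) < 27 * x ^ 2 := by positivity
  rcases hw0.eq_or_lt with h0 | hw
  · rw [← h0]
    simp
  rcases hxw.eq_or_lt with h1 | hlt
  · rw [h1]
    simp only [sub_self]
    positivity
  set a : ℝ := 2 * x * w with ha
  have ha0 : 0 < a := by positivity
  have hq : (1 : ℝ) ≤ 1 / w ^ 2 := by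
    rw [le_div_iff₀ (by positivity)]
    nlinarith
  set q : ℝ := 1 / w ^ 2 with hqdef
  have hq0 : 0 < q := lt_of_lt_of_le one_pos hq
  have hx2 : 27 * x ^ 2 = 27 * q * a ^ 2 / 4 := by
    rw [hqdef, ha]
    field_simp
    ring
  have hlog : Real.log (27 * x ^ 2) = Real.log 27 + Real.log q + 2 * Real.log a - 2 * Real.log 2 := by
    rw [hx2, Real.log_div (by positivity) (by norm_num), Real.log_mul (by positivity) (by positivity),
      Real.log_mul (by norm_num) hq0.ne', Real.log_pow, show (4 : ℝ) = 2 ^ 2 by norm_num,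
      Real.log_pow]
    norm_num
  have h1 := lin q a hq ha0 hlt
  have h2 := phi_ge q hq
  have h3 : q * Real.log (1 - a) + Real.log (27 * x ^ 2) ≤ 0 := by
    rw [hlog]
    nlinarith
  have h4 : Real.log (1 - a) ≤ -(w ^ 2) * Real.log (27 * x ^ 2) := by
    have h5 : w ^ 2 * (q * Real.log (1 - a) + Real.log (27 * x ^ 2)) ≤ 0 :=
      mul_nonpos_of_nonneg_of_nonpos (by positivity) h3
    have h6 : w ^ 2 * q = 1 := by
      rw [hqdef]
      field_simp
    have h7 : w ^ 2 * (q * Real.log (1 - a) + Real.log (27 * x ^ 2)) =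
        (w ^ 2 * q) * Real.log (1 - a) + w ^ 2 * Real.log (27 * x ^ 2) := by ring
    rw [h7, h6] at h5
    linarith
  have h8 : (0 : ℝ) < 1 - a := by linarith
  rw [← Real.log_le_log_iff h8 (Real.rpow_pos_of_pos h27 _), Real.log_rpow h27]
  exact h4

end Pool.Agent.TD
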