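import Pool.Agent.Work.MP_1ce445_co.KEY

namespace Pool.Agent.TD

open Finset

theorem stmt_TWO : Stmt_TWO := by
  intro ι s a b u v ha hb hab huv hsum
  have hfac0 : ∀ j ∈ s, 0 ≤ 1 - (a * u j + b * v j) := by
    intro j hj
    obtain ⟨h1, h2, h3, h4⟩ := huv j hj
    nlinarith
  have hfac1 : ∀ j ∈ s, 1 - (a * u j + b * v j) ≤ 1 := by
    intro j hj
    obtain ⟨h1, h2, h3, h4⟩ := huv j hj
    nlinarith [mul_nonneg ha h1, mul_nonneg hb h3]
  have hprod1 : ∏ j ∈ s, (1 - (a * u j + b * v j)) ≤ 1 := Finset.prod_le_one hfac0 hfac1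
  have hprod0 : 0 ≤ ∏ j ∈ s, (1 - (a * u j + b * v j)) := Finset.prod_nonneg hfac0
  rcases (mul_nonneg ha hb).eq_or_lt with h0 | hpos
  · rw [← h0]
    norm_num
  by_cases h27 : 27 * (a * b) < 1
  · nlinarith
  push Not at h27
  set x : ℝ := Real.sqrt (a * b) with hx
  have hx0 : 0 < x := Real.sqrt_pos.2 hpos
  have hxx : x ^ 2 = a * b := Real.sq_sqrt hpos.le
  have hxhalf : 2 * x ≤ 1 := by
    nlinarith [sq_nonneg (a - b), sq_nonneg (2 * x - 1)]
  have hw : ∀ j ∈ s, 1 - (a * u j + b * v j) ≤ (27 * x ^ 2) ^ (-(u j * v j)) := by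
    intro j hj
    obtain ⟨h1, h2, h3, h4⟩ := huv j hj
    have huv0 : 0 ≤ u j * v j := mul_nonneg h1 h3
    have hws : (Real.sqrt (u j * v j)) ^ 2 = u j * v j := Real.sq_sqrt huv0
    have hw0 : 0 ≤ Real.sqrt (u j * v j) := Real.sqrt_nonneg _
    have hw1 : Real.sqrt (u j * v j) ≤ 1 := by
      rw [Real.sqrt_le_one]
      nlinarith
    have h5 := stmt_KEY x (Real.sqrt (u j * v j)) hx0 hw0 hw1 (by nlinarith)
    rw [hws] at h5
    refine le_trans ?_ h5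
    have h6 : 2 * x * Real.sqrt (u j * v j) ≤ a * u j + b * v j := by
      have h7 : (2 * x * Real.sqrt (u j * v j)) ^ 2 ≤ (a * u j + b * v j) ^ 2 := by
        have : (2 * x * Real.sqrt (u j * v j)) ^ 2 = 4 * (a * b) * (u j * v j) := by
          rw [mul_pow, mul_pow, hxx, hws]
          ring
        rw [this]
        nlinarith [sq_nonneg (a * u j - b * v j)]
      have h8 : 0 ≤ a * u j + b * v j := by positivity
      exact abs_le_of_sq_le_sq' h7 h8 |>.2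
    linarith
  have hx27 : (1 : ℝ) ≤ 27 * x ^ 2 := by rw [hxx]; exact h27
  have hx27pos : (0 : ℝ) < 27 * x ^ 2 := lt_of_lt_of_le one_pos hx27
  have h9 : ∏ j ∈ s, (1 - (a * u j + b * v j)) ≤ (27 * x ^ 2) ^ (-(∑ j ∈ s, u j * v j)) := by
    calc ∏ j ∈ s, (1 - (a * u j + b * v j)) ≤ ∏ j ∈ s, (27 * x ^ 2) ^ (-(u j * v j)) :=
          Finset.prod_le_prod hfac0 hw
      _ = (27 * x ^ 2) ^ (∑ j ∈ s, -(u j * v j)) := (Real.rpow_sum_of_pos hx27pos _ _).symm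
      _ = (27 * x ^ 2) ^ (-(∑ j ∈ s, u j * v j)) := by rw [Finset.sum_neg_distrib]
  have h10 : (27 * x ^ 2) ^ (-(∑ j ∈ s, u j * v j)) ≤ (27 * x ^ 2) ^ (-1 : ℝ) :=
    Real.rpow_le_rpow_of_exponent_le hx27 (by linarith)
  rw [Real.rpow_neg_one, hxx] at h10
  rw [hxx] at h9
  calc a * b * ∏ j ∈ s, (1 - (a * u j + b * v j)) ≤ a * b * (27 * (a * b))⁻¹ :=
        mul_le_mul_of_nonneg_left (h9.trans h10) hpos.le
    _ = 1 / 27 := by
      have h11 : a * b * (27 * (a * b))⁻¹ = (27 : ℝ)⁻¹ * ((a * b) * (a * b)⁻¹) := by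
        rw [mul_inv]
        ring
      rw [h11, mul_inv_cancel₀ hpos.ne']
      norm_num

end Pool.Agent.TD
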