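import Pool.Agent.Work.MP_1ce445_co.FAMS

/-!
UP: the upper bound `1/27 + ε`, from the stable inequality, the greedy bound and the count of pairs.
-/

namespace Pool.Agent.TD

open Finset

theorem stmt_UP (hS : Stmt_FAMS) (hG : Stmt_GRE) (hP : Stmt_PAIR) : Stmt_UP := by
  classical
  intro k hk ε hε
  obtain ⟨δ, hδ, hstab⟩ := hS k (ε / 2) (by positivity)
  -- the threshold
  obtain ⟨t, ht⟩ := exists_nat_gt (max 2 (2 ^ (k + 2) / ε))
  have ht2 : (2 : ℝ) < t := lt_of_le_of_lt (le_max_left _ _) ht
  have htε : 2 ^ (k + 2) / ε < t := lt_of_le_of_lt (le_max_right _ _) ht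
  have ht0 : (0 : ℝ) < t := by linarith
  have ht1 : 1 ≤ t := by
    have : (0 : ℝ) < t := ht0
    exact_mod_cast this
  set T := t ^ 2 with hT
  obtain ⟨n0, hn0⟩ := exists_nat_gt ((1 + 2 * k * T) / δ)
  refine ⟨max n0 1, ?_⟩
  intro n hn G hf
  have hn1 : 1 ≤ n := le_trans (le_max_right _ _) hn
  have hnn0 : n0 ≤ n := le_trans (le_max_left _ _) hn
  have hnR : (0 : ℝ) < n := by exact_mod_cast hn1
  have hnδ : (1 + 2 * (k : ℝ) * T) / δ < n := lt_of_lt_of_le hn0 (by exact_mod_cast hnn0)
  set Hf : Fin n → Finset (Fin k) := fun v => univ.filter (fun j => T ≤ (G j).degree v) with hHf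
  set c : Finset (Fin k) → ℝ := fun A => ((univ.filter (fun v => Hf v = A)).card : ℝ) / n with hc
  have hc0 : ∀ A, 0 ≤ c A := fun A => div_nonneg (Nat.cast_nonneg _) hnR.le
  have hcard : ∑ A : Finset (Fin k), (univ.filter (fun v => Hf v = A)).card = n := by
    have := Finset.card_eq_sum_card_fiberwise (f := Hf) (s := (univ : Finset (Fin n)))
      (t := (univ : Finset (Finset (Fin k)))) (fun _ _ => mem_coe.2 (mem_univ _))
    rw [Finset.card_univ, Fintype.card_fin] at this
    exact this.symm
  have hc1 : ∑ A, c A = 1 := by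
    rw [hc, ← sum_div, ← Nat.cast_sum, hcard]
    field_simp
  have hcd : ∀ A B, A ∩ B = ∅ → c A * c B ≤ δ := by
    intro A B hAB
    have h1 : (univ.filter (fun v => Hf v = A)).card * (univ.filter (fun v => Hf v = B)).card
        ≤ n + 2 * k * T * n := by
      refine le_trans ?_ (hP n k T G hf)
      rw [← card_product]
      refine card_le_card ?_
      intro p hp
      rw [mem_product, mem_filter, mem_filter] at hp
      obtain ⟨⟨-, h1⟩, ⟨-, h2⟩⟩ := hp
      rw [mem_filter]
      refine ⟨mem_univ _, fun j => ?_⟩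
      by_contra hcon
      rw [not_or, not_lt, not_lt] at hcon
      have h3 : j ∈ A := by
        rw [← h1]
        exact mem_filter.2 ⟨mem_univ _, hcon.1⟩
      have h4 : j ∈ B := by
        rw [← h2]
        exact mem_filter.2 ⟨mem_univ _, hcon.2⟩
      have h5 : j ∈ A ∩ B := mem_inter.2 ⟨h3, h4⟩
      rw [hAB] at h5
      exact absurd h5 (notMem_empty _)
    have h2 : ((univ.filter (fun v => Hf v = A)).card : ℝ)
        * ((univ.filter (fun v => Hf v = B)).card : ℝ) ≤ n + 2 * k * T * n := by
      exact_mod_cast h1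
    have h3 : c A * c B = ((univ.filter (fun v => Hf v = A)).card : ℝ)
        * ((univ.filter (fun v => Hf v = B)).card : ℝ) / (n * n) := by
      rw [hc]
      dsimp only
      rw [div_mul_div_comm]
    rw [h3, div_le_iff₀ (by positivity)]
    have h4 : 1 + 2 * (k : ℝ) * T ≤ δ * n := by
      rw [div_lt_iff₀ hδ] at hnδ
      linarith
    calc ((univ.filter (fun v => Hf v = A)).card : ℝ) * ((univ.filter (fun v => Hf v = B)).card : ℝ)
        ≤ n + 2 * k * T * n := h2
      _ = (1 + 2 * k * T) * n := by ring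
      _ ≤ (δ * n) * n := mul_le_mul_of_nonneg_right h4 hnR.le
      _ = δ * (n * n) := by ring
  have hmain := hstab c hc0 hc1 hcd
  -- the small degrees
  have hx : ∀ j, 1 - ∑ A with j ∈ A, c A
      = ((univ.filter (fun v => (G j).degree v < T)).card : ℝ) / n := by
    intro j
    have h1 : ∑ A with j ∈ A, (univ.filter (fun v => Hf v = A)).card
        = (univ.filter (fun v => T ≤ (G j).degree v)).card := by
      have h2 := Finset.card_eq_sum_card_fiberwise (f := Hf)
        (s := univ.filter (fun v => T ≤ (G j).degree v))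
        (t := univ.filter (fun A : Finset (Fin k) => j ∈ A)) (fun v hv => by
          rw [mem_coe, mem_filter] at hv
          rw [mem_coe, mem_filter]
          exact ⟨mem_univ _, mem_filter.2 ⟨mem_univ _, hv.2⟩⟩)
      rw [h2]
      refine sum_congr rfl (fun A hA => ?_)
      rw [mem_filter] at hA
      congr 1
      ext v
      rw [mem_filter, mem_filter, mem_filter]
      constructor
      · rintro ⟨-, h3⟩
        refine ⟨⟨mem_univ _, ?_⟩, h3⟩
        have h4 : j ∈ Hf v := by rw [h3]; exact hA.2
        exact (mem_filter.1 h4).2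
      · rintro ⟨-, h3⟩
        exact ⟨mem_univ _, h3⟩
    have h3 : (univ.filter (fun v => T ≤ (G j).degree v)).card
        + (univ.filter (fun v => (G j).degree v < T)).card = n := by
      have h4 := Finset.card_filter_add_card_filter_not (s := (univ : Finset (Fin n)))
        (fun v => T ≤ (G j).degree v)
      simp only [not_le] at h4
      rw [h4, Finset.card_univ, Fintype.card_fin]
    have h5 : ∑ A with j ∈ A, c A = ((univ.filter (fun v => T ≤ (G j).degree v)).card : ℝ) / n := by
      rw [hc, ← sum_div, ← Nat.cast_sum, h1]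
    rw [h5, eq_div_iff hnR.ne', sub_mul, div_mul_cancel₀ _ hnR.ne', one_mul]
    have h6 : ((univ.filter (fun v => T ≤ (G j).degree v)).card : ℝ)
        + ((univ.filter (fun v => (G j).degree v < T)).card : ℝ) = n := by
      exact_mod_cast h3
    linarith
  set η : ℝ := 2 / t with hη
  have hη0 : 0 ≤ η := by positivity
  have hη1 : η ≤ 1 := by
    rw [hη, div_le_one ht0]
    exact ht2.le
  have hg : ∀ j, (gammaT (G j) : ℝ) ≤ (1 - ∑ A with j ∈ A, c A + η) * n := by
    intro j
    have h1 := hG n t (G j) ht1 (hf.pos j)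
    have h2 : (t : ℝ) * gammaT (G j)
        ≤ t * ((univ.filter (fun v => (G j).degree v < T)).card : ℝ) + 2 * n := by
      exact_mod_cast h1
    rw [hx j, add_mul, div_mul_cancel₀ _ hnR.ne', hη]
    have h3 : (t : ℝ) * gammaT (G j)
        ≤ t * (((univ.filter (fun v => (G j).degree v < T)).card : ℝ) + 2 / t * n) := by
      have h4 : (t : ℝ) * (2 / t * n) = 2 * n := by field_simp
      rw [mul_add, h4]
      exact h2
    exact le_of_mul_le_mul_left h3 ht0
  have hx01 : ∀ j, 0 ≤ 1 - ∑ A with j ∈ A, c A ∧ 1 - ∑ A with j ∈ A, c A ≤ 1 := by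
    intro j
    have h1 : 0 ≤ ∑ A with j ∈ A, c A := sum_nonneg (fun A _ => hc0 A)
    have h2 : ∑ A with j ∈ A, c A ≤ 1 := by
      rw [← hc1]
      exact sum_le_sum_of_subset_of_nonneg (filter_subset _ _) (fun A _ _ => hc0 A)
    constructor <;> linarith
  calc ∏ j, (gammaT (G j) : ℝ) ≤ ∏ j : Fin k, ((1 - ∑ A with j ∈ A, c A + η) * n) :=
        prod_le_prod (fun j _ => Nat.cast_nonneg _) (fun j _ => hg j)
    _ = (∏ j : Fin k, (1 - ∑ A with j ∈ A, c A + η)) * n ^ k := by
        rw [prod_mul_distrib, prod_const, Finset.card_univ, Fintype.card_fin]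
    _ ≤ (1 / 27 + ε) * n ^ k := by
        refine mul_le_mul_of_nonneg_right ?_ (by positivity)
        refine (prod_add_le _ _ _ (fun j _ => hx01 j) hη0 hη1).trans ?_
        rw [Finset.card_univ, Fintype.card_fin]
        have h1 : (2 ^ k - 1) * η ≤ ε / 2 := by
          have h2 : (2 ^ k : ℝ) * η ≤ ε / 2 := by
            rw [hη]
            rw [div_lt_iff₀ hε] at htε
            rw [← mul_div_assoc, div_le_iff₀ ht0]
            rw [pow_add] at htε
            nlinarith
          have h3 : (2 ^ k - 1) * η ≤ 2 ^ k * η := mul_le_mul_of_nonneg_right (by linarith) hη0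
          linarith
        linarith

end Pool.Agent.TD
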